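import Mathlib
import Pool.Agent.MP_ed3b92_lc.Defs

section

open Finset

namespace Pool.Agent.MP_ed3b92_lc

variable {n : ℕ}

/-- `p` has a formula with at most `N` leaves. -/
def Rep (N : ℕ) (p : (Fin n → Bool) → Prop) : Prop :=
  ∃ f : Fm n, f.size ≤ N ∧ ∀ x, f.eval x = true ↔ p x

lemma Rep.mono {N M : ℕ} {p q : (Fin n → Bool) → Prop} (h : Rep N p) (hN : N ≤ M)
    (hq : ∀ x, p x ↔ q x) : Rep M q := by
  obtain ⟨f, h1, h2⟩ := h
  exact ⟨f, h1.trans hN, fun x => (h2 x).trans (hq x)⟩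

lemma Rep.and {N M : ℕ} {p q : (Fin n → Bool) → Prop} (h : Rep N p) (h' : Rep M q) :
    Rep (N + M) (fun x => p x ∧ q x) := by
  obtain ⟨f, h1, h2⟩ := h
  obtain ⟨g, h3, h4⟩ := h'
  exact ⟨.and f g, by simp [Fm.size]; omega, fun x => by simp [Fm.eval, h2, h4]⟩

lemma Rep.or {N M : ℕ} {p q : (Fin n → Bool) → Prop} (h : Rep N p) (h' : Rep M q) :
    Rep (N + M) (fun x => p x ∨ q x) := by
  obtain ⟨f, h1, h2⟩ := h
  obtain ⟨g, h3, h4⟩ := h'
  exact ⟨.or f g, by simp [Fm.size]; omega, fun x => by simp [Fm.eval, h2, h4]⟩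

lemma Rep.lit (i : Fin n) (b : Bool) : Rep 1 (fun x : Fin n → Bool => x i = b) :=
  ⟨.lit i b, le_rfl, fun x => by simp [Fm.eval]⟩

lemma Rep.const (b : Bool) : Rep 1 (fun _ : Fin n → Bool => b = true) :=
  ⟨.const b, le_rfl, fun x => by simp [Fm.eval]⟩

lemma Rep.all {ι : Type} [DecidableEq ι] (s : Finset ι) (N : ℕ)
    (p : ι → (Fin n → Bool) → Prop) (h : ∀ i ∈ s, Rep N (p i)) :
    Rep (#s * N + 1) (fun x => ∀ i ∈ s, p i x) := by
  induction s using Finset.induction_on with
  | empty => exact (Rep.const true).mono (by simp) (by simp)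
  | insert a s ha ih =>
    refine ((h a (by simp)).and (ih fun i hi => h i (by simp [hi]))).mono ?_ (by simp)
    rw [card_insert_of_notMem ha]; exact le_of_eq (by ring)

lemma Rep.ex {ι : Type} [DecidableEq ι] (s : Finset ι) (N : ℕ)
    (p : ι → (Fin n → Bool) → Prop) (h : ∀ i ∈ s, Rep N (p i)) :
    Rep (#s * N + 1) (fun x => ∃ i ∈ s, p i x) := by
  induction s using Finset.induction_on with
  | empty => exact (Rep.const false).mono (by simp) (by simp)
  | insert a s ha ih =>
    refine ((h a (by simp)).or (ih fun i hi => h i (by simp [hi]))).mono ?_ (by simp)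
    rw [card_insert_of_notMem ha]; exact le_of_eq (by ring)

/-- number of ones of `x` inside `U` -/
def ones (U : Finset (Fin n)) (x : Fin n → Bool) : ℕ := #{v ∈ U | x v = true}

lemma ones_split {U W : Finset (Fin n)} (h : W ⊆ U) (x : Fin n → Bool) :
    ones U x = ones W x + ones (U \ W) x := by
  unfold ones
  rw [← card_union_of_disjoint, ← filter_union, union_sdiff_of_subset h]
  exact disjoint_filter_filter disjoint_sdiff

lemma Rep.par (d : ℕ) : ∀ U : Finset (Fin n), #U ≤ 2 ^ d →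
    Rep (4 ^ d) (fun x => Even (ones U x)) ∧ Rep (4 ^ d) (fun x => ¬ Even (ones U x)) := by
  induction d with
  | zero =>
    intro U hU
    rcases Nat.le_one_iff_eq_zero_or_eq_one.1 (by simpa using hU) with h | h
    · rw [card_eq_zero] at h; subst h
      exact ⟨(Rep.const true).mono (by simp) (by simp [ones]),
        (Rep.const false).mono (by simp) (by simp [ones])⟩
    · obtain ⟨a, rfl⟩ := card_eq_one.1 h
      refine ⟨(Rep.lit a false).mono (by simp) fun x => ?_,
        (Rep.lit a true).mono (by simp) fun x => ?_⟩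
      · cases hx : x a <;> simp [ones, filter_singleton, hx]
      · cases hx : x a <;> simp [ones, filter_singleton, hx]
  | succ d ih =>
    intro U hU
    obtain ⟨W, hW, hc⟩ := exists_subset_card_eq (s := U) (n := min (#U) (2 ^ d)) (min_le_left _ _)
    have h1 : #W ≤ 2 ^ d := hc ▸ min_le_right _ _
    have h2 : #(U \ W) ≤ 2 ^ d := by
      rw [card_sdiff_of_subset hW, hc, pow_succ] at *; omega
    obtain ⟨a1, a2⟩ := ih W h1
    obtain ⟨b1, b2⟩ := ih _ h2
    refine ⟨((a1.and b1).or (a2.and b2)).mono (le_of_eq (by ring)) fun x => ?_,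
      ((a1.and b2).or (a2.and b1)).mono (le_of_eq (by ring)) fun x => ?_⟩
    · rw [ones_split hW, Nat.even_add]; tauto
    · rw [ones_split hW, Nat.even_add]; tauto

/-- all guards of a term have even parity -/
def tau {b : ℕ} (g : Fin b → Finset (Fin n)) (x : Fin n → Bool) : Prop :=
  ∀ i, Even (ones (g i) x)

instance {b : ℕ} (g : Fin b → Finset (Fin n)) : DecidablePred (tau g) := fun x => by
  unfold tau; infer_instance

lemma rep_F {b : ℕ} (d : ℕ) (G : Fin n → Fin b → Finset (Fin n)) (hG : ∀ j i, #(G j i) ≤ 2 ^ d)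
    (J : Finset (Fin n)) :
    Rep (n * (b * 4 ^ d + 2) + 1) (fun x => ∃ j ∈ J, x j = true ∧ tau (G j) x) := by
  have h : ∀ j ∈ J, Rep (b * 4 ^ d + 2) (fun x => x j = true ∧ tau (G j) x) := by
    intro j _
    have := Rep.all (univ : Finset (Fin b)) (4 ^ d) (fun i x => Even (ones (G j i) x))
      (fun i _ => (Rep.par d _ (hG j i)).1)
    refine ((Rep.lit j true).and this).mono (by simp; omega) (by simp [tau])
  refine (Rep.ex J _ _ h).mono ?_ (fun x => Iff.rfl)
  have : #J ≤ n := by simpa using card_le_univ J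
  gcongr

end Pool.Agent.MP_ed3b92_lc

end

section

open Finset Function

namespace Pool.Agent.MP_ed3b92_lc

section fib
variable {ι Ω : Type} [Fintype ι] [DecidableEq ι] [Fintype Ω]

lemma fib [Nonempty Ω] (a : ι) (P E : (ι → Ω) → Prop) [DecidablePred P] [DecidablePred E] (M : ℕ)
    (hP : ∀ A ω, P (update A a ω) ↔ P A)
    (hE : ∀ A, #{ω | E (update A a ω)} * M ≤ Fintype.card Ω) :
    #{A | P A ∧ E A} * M ≤ #{A | P A} := by
  have hpos : 0 < Fintype.card Ω := Fintype.card_pos
  refine Nat.le_of_mul_le_mul_right ?_ hpos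
  have h1 : #{A | P A ∧ E A} * Fintype.card Ω
      = #{p : (ι → Ω) × Ω | P p.1 ∧ E (update p.1 a p.2)} := by
    rw [← card_univ, ← card_product]
    refine card_nbij' (fun p => (update p.1 a p.2, p.1 a)) (fun p => (update p.1 a p.2, p.1 a))
      ?_ ?_ ?_ ?_
    · intro p hp
      simp only [coe_product, coe_filter, mem_univ, true_and, Set.mem_prod, Set.mem_ofPred_eq] at hp ⊢
      simp [hP, hp.1.1, hp.1.2]
    · intro p hp
      simp only [coe_product, coe_filter, mem_univ, true_and, Set.mem_prod, Set.mem_ofPred_eq] at hp ⊢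
      simp [hP, hp.1, hp.2]
    · intro p _; simp
    · intro p _; simp
  have h2 : #{p : (ι → Ω) × Ω | P p.1 ∧ E (update p.1 a p.2)}
      = ∑ A ∈ {A | P A}, #{ω | E (update A a ω)} := by
    rw [card_eq_sum_ones, sum_filter, Fintype.sum_prod_type, sum_filter]
    refine sum_congr rfl fun A _ => ?_
    by_cases h : P A
    · simp [h]
    · simp [h]
  calc #{A | P A ∧ E A} * M * Fintype.card Ω = (#{A | P A ∧ E A} * Fintype.card Ω) * M := by ring
    _ = ∑ A ∈ {A | P A}, #{ω | E (update A a ω)} * M := by rw [h1, h2, sum_mul]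
    _ ≤ ∑ A ∈ {A | P A}, Fintype.card Ω := sum_le_sum fun A _ => hE A
    _ = _ := by simp

lemma chain [Nonempty Ω] (f : ι → ℤ) (hf : Injective f) (E : ι → (ι → Ω) → Prop)
    [∀ j, DecidablePred (E j)] (M : ℕ)
    (hinv : ∀ j m, f j < f m → ∀ A ω, E j (update A m ω) ↔ E j A)
    (hE : ∀ j A, #{ω | E j (update A j ω)} * M ≤ Fintype.card Ω) (S : Finset ι) :
    #{A | ∀ j ∈ S, E j A} * M ^ #S ≤ Fintype.card (ι → Ω) := by
  induction S using Finset.induction_on_max_value f with
  | empty => simp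
  | insert a s ha hle ih =>
    have h := fib a (fun A => ∀ j ∈ s, E j A) (E a) M (fun A ω => by
      refine forall₂_congr fun j hj => hinv j a ?_ A ω
      exact lt_of_le_of_ne (hle j hj) (fun h => ha (hf h ▸ hj))) (hE a)
    rw [card_insert_of_notMem ha, pow_succ', ← mul_assoc]
    refine le_trans (Nat.mul_le_mul_right _ (le_trans (le_of_eq ?_) h)) ih
    congr 2
    ext A; simp [and_comm]

end fib

lemma blk_ineq (β : ℕ) : ∀ t, t ≤ β → (β - t) ^ β * 2 ^ t ≤ β ^ β := by
  intro t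
  induction t with
  | zero => simp
  | succ t ih =>
    intro ht
    refine le_trans ?_ (ih (by omega))
    obtain ⟨m, hm⟩ : ∃ m, β - t = m + 1 := ⟨β - t - 1, by omega⟩
    have h1 : β - (t + 1) = m := by omega
    rw [h1, hm, pow_succ', ← mul_assoc]
    refine Nat.mul_le_mul_right _ ?_
    have h2 := pow_add_mul_le_add_pow (a := m) (b := 1) (Nat.zero_le _) (Nat.zero_le _) β
    obtain ⟨c, rfl⟩ : ∃ c, β = c + 1 := ⟨β - 1, by omega⟩
    have h3 : m ≤ c + 1 := by omega
    simp only [Nat.cast_id, add_tsub_cancel_right, mul_one] at h2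
    calc m ^ (c + 1) * 2 = m ^ (c + 1) + m * m ^ c := by ring
      _ ≤ m ^ (c + 1) + (c + 1) * m ^ c := by gcongr
      _ ≤ _ := h2

variable {n w β : ℕ}

/-- the set of variables chosen by a guard -/
def supp (blk : Fin n → Fin w) (pos : Fin n → Fin β) (γ : Fin w → Fin β) : Finset (Fin n) :=
  {v | γ (blk v) = pos v}

lemma card_supp (blk : Fin n → Fin w) (pos : Fin n → Fin β)
    (hinj : ∀ u v, blk u = blk v → pos u = pos v → u = v) (γ : Fin w → Fin β) :
    #(supp blk pos γ) ≤ w := by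
  have := card_le_card_of_injOn (s := supp blk pos γ) (t := univ) blk (fun _ _ => by simp) (by
    intro u hu v hv h
    simp only [supp, coe_filter, mem_univ, true_and, Set.mem_ofPred_eq] at hu hv
    exact hinj u v h (by rw [← hu, ← hv, h]))
  simpa using this

lemma pattern (blk : Fin n → Fin w) (pos : Fin n → Fin β)
    (hinj : ∀ u v, blk u = blk v → pos u = pos v → u = v) (hβ : 2 ≤ β) (T : Finset (Fin n))
    (lam : ℕ) (hT : β * lam ≤ #T) (u : Fin n → Prop) [DecidablePred u] :
    #{γ : Fin w → Fin β | ∀ v ∈ T, (v ∈ supp blk pos γ ↔ u v)} * 2 ^ lam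
      ≤ Fintype.card (Fin w → Fin β) := by
  set a : Fin w → Finset (Fin β) := fun B => {p | ∀ v ∈ T, blk v = B → (p = pos v ↔ u v)} with ha
  have h1 : ({γ : Fin w → Fin β | ∀ v ∈ T, (v ∈ supp blk pos γ ↔ u v)} : Finset _)
      = Fintype.piFinset a := by
    ext γ
    simp only [supp, mem_filter, mem_univ, true_and, Fintype.mem_piFinset, ha]
    exact ⟨fun h B v hv hB => hB ▸ h v hv, fun h v hv => h _ v hv rfl⟩
  have h2 : ∀ B, #(a B) ^ β * 2 ^ #{v ∈ T | blk v = B} ≤ β ^ β := by
    intro B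
    have hi : Set.InjOn pos ({v ∈ T | blk v = B} : Finset _) := by
      intro u hu v hv h
      simp only [coe_filter, Set.mem_ofPred_eq] at hu hv
      exact hinj u v (hu.2.trans hv.2.symm) h
    have ht : #{v ∈ T | blk v = B} ≤ β := by
      simpa using card_le_card_of_injOn (t := univ) pos (fun _ _ => by simp) hi
    by_cases hc : ∃ v ∈ T, blk v = B ∧ u v
    · obtain ⟨v, hv, hB, hu⟩ := hc
      have : #(a B) ≤ 1 := by
        refine le_trans (card_le_card (t := {pos v}) fun p hp => ?_) (by simp)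
        simp only [ha, mem_filter, mem_univ, true_and] at hp
        simp [(hp v hv hB).2 hu]
      calc _ ≤ 1 ^ β * 2 ^ β := by gcongr; norm_num
        _ ≤ β ^ β := by rw [one_pow, one_mul]; gcongr
    · have : #(a B) ≤ β - #{v ∈ T | blk v = B} := by
        rw [← card_image_of_injOn hi]
        refine le_trans (card_le_card (t := (image pos {v ∈ T | blk v = B})ᶜ) fun p hp => ?_)
          (by simp [card_compl])
        simp only [ha, mem_filter, mem_univ, true_and] at hp
        simp only [mem_compl, mem_image, mem_filter, not_exists, not_and, and_imp]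
        intro v hv hB hpv
        exact hc ⟨v, hv, hB, (hp v hv hB).1 hpv.symm⟩
      calc _ ≤ (β - #{v ∈ T | blk v = B}) ^ β * 2 ^ #{v ∈ T | blk v = B} := by gcongr
        _ ≤ _ := blk_ineq β _ ht
  have h3 : #T = ∑ B, #{v ∈ T | blk v = B} :=
    card_eq_sum_card_fiberwise (fun _ _ => by simp)
  rw [h1, Fintype.card_piFinset]
  refine (Nat.pow_le_pow_iff_left (n := β) (by omega)).1 ?_
  calc ((∏ B, #(a B)) * 2 ^ lam) ^ β = (∏ B, #(a B)) ^ β * 2 ^ (β * lam) := by
        rw [mul_pow, ← pow_mul, mul_comm lam]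
    _ ≤ (∏ B, #(a B)) ^ β * 2 ^ #T := by gcongr; norm_num
    _ = ∏ B, (#(a B) ^ β * 2 ^ #{v ∈ T | blk v = B}) := by
        rw [prod_mul_distrib, prod_pow, prod_pow_eq_pow_sum, ← h3]
    _ ≤ ∏ _B : Fin w, β ^ β := prod_le_prod' fun B _ => h2 B
    _ = _ := by simp [← pow_mul, mul_comm]

variable {b : ℕ}

/-- how many guards with index in `c` contain `v` -/
def cnt (g : Fin b → Finset (Fin n)) (c : Finset (Fin b)) (v : Fin n) : ℕ := #{i ∈ c | v ∈ g i}

/-- no nonempty sum of the sets `g i` agrees on `T`, mod 2, with a sum of the sets `g' i` -/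
def Indep (T : Finset (Fin n)) (g g' : Fin b → Finset (Fin n)) : Prop :=
  ∀ c : Finset (Fin b), c.Nonempty → ∀ c' : Finset (Fin b),
    ∃ v ∈ T, ¬ Even (cnt g c v + cnt g' c' v)

instance (T : Finset (Fin n)) (g g' : Fin b → Finset (Fin n)) : Decidable (Indep T g g') := by
  unfold Indep; infer_instance

lemma one_fail (blk : Fin n → Fin w) (pos : Fin n → Fin β)
    (hinj : ∀ u v, blk u = blk v → pos u = pos v → u = v) (hβ : 2 ≤ β) (T : Finset (Fin n))
    (lam : ℕ) (hT : β * lam ≤ #T) (g' : Fin b → Finset (Fin n)) :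
    #{g : Fin b → Fin w → Fin β | ¬ Indep T (fun i => supp blk pos (g i)) g'} * 2 ^ lam
      ≤ 4 ^ b * Fintype.card (Fin b → Fin w → Fin β) := by
  have : Nonempty (Fin w → Fin β) := ⟨fun _ => ⟨0, by omega⟩⟩
  have key : ∀ c : Finset (Fin b), ∀ c' : Finset (Fin b),
      #{g : Fin b → Fin w → Fin β | c.Nonempty ∧
        ∀ v ∈ T, Even (cnt (fun i => supp blk pos (g i)) c v + cnt g' c' v)} * 2 ^ lam
        ≤ Fintype.card (Fin b → Fin w → Fin β) := by
    intro c c'
    rcases c.eq_empty_or_nonempty with rfl | ⟨i0, hi0⟩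
    · simp
    have h := fib i0 (fun _ : Fin b → Fin w → Fin β => True)
      (fun g => ∀ v ∈ T, Even (cnt (fun i => supp blk pos (g i)) c v + cnt g' c' v)) (2 ^ lam)
      (fun _ _ => Iff.rfl) (fun A => by
        refine le_trans (le_of_eq ?_) (pattern blk pos hinj hβ T lam hT
          (fun v => ¬ Even (cnt (fun i => supp blk pos (A i)) (c.erase i0) v + cnt g' c' v)))
        congr 2
        ext γ
        simp only [mem_filter, mem_univ, true_and]
        refine forall₂_congr fun v _ => ?_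
        have : cnt (fun i => supp blk pos (update A i0 γ i)) c v
            = cnt (fun i => supp blk pos (A i)) (c.erase i0) v
              + if v ∈ supp blk pos γ then 1 else 0 := by
          unfold cnt
          rw [card_filter, card_filter, ← sum_erase_add _ _ hi0]
          simp only [update_self]
          congr 1
          exact sum_congr rfl fun i hi => by simp only [update_of_ne (ne_of_mem_erase hi)]
        rw [this]
        by_cases hv : v ∈ supp blk pos γ
        · simp only [hv, if_true, true_iff, Nat.even_iff]; omega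
        · simp only [hv, if_false, false_iff, Nat.even_iff]; omega)
    simpa [show c.Nonempty from ⟨i0, hi0⟩] using h
  calc _ ≤ #((univ : Finset (Finset (Fin b) × Finset (Fin b))).biUnion fun p =>
        {g : Fin b → Fin w → Fin β | p.1.Nonempty ∧
        ∀ v ∈ T, Even (cnt (fun i => supp blk pos (g i)) p.1 v + cnt g' p.2 v)}) * 2 ^ lam := by
        refine Nat.mul_le_mul_right _ (card_le_card fun g hg => ?_)
        simp only [Indep, mem_filter, mem_univ, true_and, not_forall, not_exists, not_and,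
          not_not] at hg
        obtain ⟨c, hc, c', h⟩ := hg
        exact mem_biUnion.2 ⟨(c, c'), mem_univ _, by simpa using ⟨hc, h⟩⟩
    _ ≤ ∑ _p : Finset (Fin b) × Finset (Fin b), Fintype.card (Fin b → Fin w → Fin β) := by
        refine le_trans (Nat.mul_le_mul_right _ card_biUnion_le) ?_
        rw [sum_mul]
        exact sum_le_sum fun p _ => key p.1 p.2
    _ = _ := by
        rw [sum_const, card_univ, Fintype.card_prod, Fintype.card_finset, Fintype.card_fin,
          ← mul_pow, smul_eq_mul]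
        norm_num

lemma half_bad (l : ℕ) (hl : 1 ≤ l) (hn : n ≤ 2 ^ l) (blk : Fin n → Fin w) (pos : Fin n → Fin β)
    (hinj : ∀ u v, blk u = blk v → pos u = pos v → u = v) (hβ : 2 ≤ β) (κ : ℕ)
    (hκ : β * (5 * l + 4) ≤ κ) (f : Fin n → ℤ) (hf : Injective f) :
    #{A : Fin n → Fin (l + 2) → Fin w → Fin β | ∃ T : Finset (Fin n), #T = κ ∧ κ + 2 ≤
      #{j | ∃ j', f j' < f j ∧
        ¬ Indep T (fun i => supp blk pos (A j i)) (fun i => supp blk pos (A j' i))}} * 4
      ≤ Fintype.card (Fin n → Fin (l + 2) → Fin w → Fin β) := by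
  have : Nonempty (Fin (l + 2) → Fin w → Fin β) := ⟨fun _ _ => ⟨0, by omega⟩⟩
  set N := Fintype.card (Fin n → Fin (l + 2) → Fin w → Fin β)
  have key : ∀ T S : Finset (Fin n), #T = κ → #S = κ + 2 →
      #{A : Fin n → Fin (l + 2) → Fin w → Fin β | ∀ j ∈ S, ∃ j', f j' < f j ∧
        ¬ Indep T (fun i => supp blk pos (A j i)) (fun i => supp blk pos (A j' i))}
        * (2 ^ (2 * l)) ^ (κ + 2) ≤ N := by
    intro T S hT hS
    rw [← hS]
    refine le_trans (le_of_eq ?_) (chain f hf
      (fun j (A : Fin n → Fin (l + 2) → Fin w → Fin β) => ∃ j', f j' < f j ∧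
        ¬ Indep T (fun i => supp blk pos (A j i)) (fun i => supp blk pos (A j' i)))
        (2 ^ (2 * l)) ?_ ?_ S)
    · congr 2
      ext A; simp only [mem_filter]
    · intro j m hjm A ω
      refine exists_congr fun j' => and_congr_right fun h => ?_
      have h1 : j ≠ m := fun e => by rw [e] at hjm; exact lt_irrefl _ hjm
      have h2 : j' ≠ m := fun e => by rw [e] at h; exact lt_asymm h hjm
      rw [update_of_ne h1, update_of_ne h2]
    · intro j A
      refine Nat.le_of_mul_le_mul_right ?_ (show 0 < 2 ^ (3 * l + 4) by positivity)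
      calc _ ≤ #((univ : Finset (Fin n)).biUnion fun j' =>
          {g : Fin (l + 2) → Fin w → Fin β | ¬ Indep T (fun i => supp blk pos (g i))
            (fun i => supp blk pos (A j' i))}) * 2 ^ (5 * l + 4) := by
            rw [mul_assoc, ← pow_add, show 2 * l + (3 * l + 4) = 5 * l + 4 by ring]
            refine Nat.mul_le_mul_right _ (card_le_card fun g hg => ?_)
            simp only [mem_filter, mem_univ, true_and] at hg
            obtain ⟨j', h, h'⟩ := hg
            have h1 : j' ≠ j := fun e => by rw [e] at h; exact lt_irrefl _ h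
            rw [update_self, update_of_ne h1] at h'
            exact mem_biUnion.2 ⟨j', mem_univ _, by simpa using h'⟩
        _ ≤ ∑ _j' : Fin n, 4 ^ (l + 2) * Fintype.card (Fin (l + 2) → Fin w → Fin β) := by
            refine le_trans (Nat.mul_le_mul_right _ card_biUnion_le) ?_
            rw [sum_mul]
            exact sum_le_sum fun j' _ => one_fail blk pos hinj hβ T _ (hT ▸ hκ) _
        _ ≤ 2 ^ l * (4 ^ (l + 2) * Fintype.card (Fin (l + 2) → Fin w → Fin β)) := by
            rw [sum_const, card_univ, Fintype.card_fin, smul_eq_mul]; gcongr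
        _ = _ := by
            rw [show (4 : ℕ) = 2 ^ 2 by norm_num, ← pow_mul]; ring
  refine Nat.le_of_mul_le_mul_right ?_ (show 0 < (2 ^ l) ^ κ * (2 ^ l) ^ (κ + 2) by positivity)
  calc _ ≤ #((powersetCard κ (univ : Finset (Fin n)) ×ˢ
        powersetCard (κ + 2) (univ : Finset (Fin n))).biUnion fun p =>
        {A : Fin n → Fin (l + 2) → Fin w → Fin β | ∀ j ∈ p.2, ∃ j', f j' < f j ∧
        ¬ Indep p.1 (fun i => supp blk pos (A j i)) (fun i => supp blk pos (A j' i))})
        * (2 ^ (2 * l)) ^ (κ + 2) := by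
        rw [mul_assoc]
        refine Nat.mul_le_mul (card_le_card fun A hA => ?_) ?_
        · obtain ⟨T, hT, h⟩ := (mem_filter.1 hA).2
          obtain ⟨S, hS, hc⟩ := exists_subset_card_eq h
          refine mem_biUnion.2 ⟨(T, S), by simp [hT, hc], mem_filter.2 ⟨mem_univ _, fun j hj => ?_⟩⟩
          exact (mem_filter.1 (hS hj)).2
        · rw [show (4 : ℕ) = 2 ^ 2 by norm_num]
          simp only [← pow_mul, ← pow_add]
          refine Nat.pow_le_pow_right (by norm_num) (by nlinarith)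
    _ ≤ ∑ _p ∈ (powersetCard κ (univ : Finset (Fin n)) ×ˢ
        powersetCard (κ + 2) (univ : Finset (Fin n))), N := by
        refine le_trans (Nat.mul_le_mul_right _ card_biUnion_le) ?_
        rw [sum_mul]
        refine sum_le_sum fun p hp => ?_
        simp only [mem_product, mem_powersetCard] at hp
        exact key p.1 p.2 hp.1.2 hp.2.2
    _ ≤ _ := by
        rw [sum_const, card_product, card_powersetCard, card_powersetCard, card_univ,
          Fintype.card_fin, smul_eq_mul, mul_comm]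
        gcongr
        · exact (Nat.choose_le_pow _ _).trans (by gcongr)
        · exact (Nat.choose_le_pow _ _).trans (by gcongr)

/-- A guard system in which, for every `κ`-set `T`, few terms are `T`-bad. -/
lemma exists_system (l : ℕ) (hl : 1 ≤ l) (hn : n ≤ 2 ^ l) (blk : Fin n → Fin w)
    (pos : Fin n → Fin β) (hinj : ∀ u v, blk u = blk v → pos u = pos v → u = v) (hβ : 2 ≤ β)
    (κ : ℕ) (hκ : β * (5 * l + 4) ≤ κ) :
    ∃ G : Fin n → Fin (l + 2) → Finset (Fin n), (∀ j i, #(G j i) ≤ w) ∧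
      ∀ T : Finset (Fin n), #T = κ → #{j | ¬ ∀ j', j' ≠ j → Indep T (G j) (G j')} ≤ 2 * κ + 2 := by
  have : Nonempty (Fin n → Fin (l + 2) → Fin w → Fin β) := ⟨fun _ _ _ => ⟨0, by omega⟩⟩
  have hpos : 0 < Fintype.card (Fin n → Fin (l + 2) → Fin w → Fin β) := Fintype.card_pos
  have h1 := half_bad l hl hn blk pos hinj hβ κ hκ (fun j => (j.val : ℤ))
    (fun a b h => Fin.ext (by simpa using h))
  have h2 := half_bad l hl hn blk pos hinj hβ κ hκ (fun j => -(j.val : ℤ))
    (fun a b h => Fin.ext (by simpa using h))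
  have h3 := (by omega : ∀ a b N : ℕ, 0 < N → a * 4 ≤ N → b * 4 ≤ N → a + b < N) _ _ _ hpos h1 h2
  rw [← card_univ] at h3
  obtain ⟨A, -, hA⟩ := exists_mem_notMem_of_card_lt_card (lt_of_le_of_lt (card_union_le _ _) h3)
  simp only [mem_union, mem_filter, mem_univ, true_and, not_or, not_exists, not_and, not_le] at hA
  refine ⟨fun j i => supp blk pos (A j i), fun j i => card_supp blk pos hinj _, fun T hT => ?_⟩
  have a1 := hA.1 T hT
  have a2 := hA.2 T hT
  refine le_trans (card_le_card ?_) (le_trans (card_union_le _ _)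
    ((by omega : ∀ a b : ℕ, a < κ + 2 → b < κ + 2 → a + b ≤ 2 * κ + 2) _ _ a1 a2))
  intro j hj
  simp only [mem_filter, mem_univ, true_and, not_forall, mem_union] at hj ⊢
  obtain ⟨j', hne, h⟩ := hj
  have : j'.val ≠ j.val := fun e => hne (Fin.ext e)
  rcases lt_or_gt_of_ne this with h' | h'
  · exact Or.inl ⟨j', by simpa using h', h⟩
  · exact Or.inr ⟨j', by simpa using h', h⟩

end Pool.Agent.MP_ed3b92_lc

end

section

open Finset Function

namespace Pool.Agent.MP_ed3b92_lc

variable {n b : ℕ}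

/-- `y` on `T`, `z` elsewhere -/
def pw (T : Finset (Fin n)) (y z : Fin n → Bool) : Fin n → Bool :=
  fun v => if v ∈ T then y v else z v

lemma pw_mem {T : Finset (Fin n)} {y z : Fin n → Bool} {v : Fin n} (h : v ∈ T) :
    pw T y z v = y v := if_pos h

lemma pw_not {T : Finset (Fin n)} {y z : Fin n → Bool} {v : Fin n} (h : v ∉ T) :
    pw T y z v = z v := if_neg h

lemma pw_univ (y z : Fin n → Bool) : pw univ y z = y := funext fun v => pw_mem (mem_univ v)

/-- product of the parity signs of the guards with index in `c` -/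
def chi (g : Fin b → Finset (Fin n)) (c : Finset (Fin b)) (x : Fin n → Bool) : ℤ :=
  ∏ i ∈ c, (-1) ^ ones (g i) x

lemma ind_eq (g : Fin b → Finset (Fin n)) (x : Fin n → Bool) :
    (if tau g x then (2 : ℤ) ^ b else 0) = ∑ c : Finset (Fin b), chi g c x := by
  have h := prod_one_add (R := ℤ) (f := fun i => (-1) ^ ones (g i) x) (univ : Finset (Fin b))
  rw [powerset_univ] at h
  unfold chi
  rw [← h]
  split_ifs with ht
  · rw [prod_congr rfl (g := fun _ => 2) fun i _ => by rw [(ht i).neg_one_pow]; norm_num]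
    simp
  · obtain ⟨i, hi⟩ := not_forall.1 ht
    exact (prod_eq_zero (mem_univ i) (by rw [(Nat.not_even_iff_odd.1 hi).neg_one_pow]; simp)).symm

lemma sign_flip (U : Finset (Fin n)) (x : Fin n → Bool) (v : Fin n) :
    (-1 : ℤ) ^ ones U (update x v (!x v)) = (if v ∈ U then -1 else 1) * (-1) ^ ones U x := by
  split_ifs with hv
  · have h1 : ones (U \ {v}) (update x v (!x v)) = ones (U \ {v}) x := by
      unfold ones
      congr 1
      refine filter_congr fun u hu => ?_
      rw [update_of_ne (by simpa using (mem_sdiff.1 hu).2)]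
    have hs : {v} ⊆ U := by simpa using hv
    rw [ones_split hs, ones_split hs x, h1, pow_add, pow_add]
    cases hx : x v <;> simp [ones, filter_singleton, hx]
  · have h1 : ones U (update x v (!x v)) = ones U x := by
      unfold ones
      congr 1
      refine filter_congr fun u hu => ?_
      rw [update_of_ne (fun e : u = v => hv (e ▸ hu))]
    rw [h1, one_mul]

lemma chi_flip (g : Fin b → Finset (Fin n)) (c : Finset (Fin b)) (x : Fin n → Bool) (v : Fin n) :
    chi g c (update x v (!x v)) = (-1) ^ cnt g c v * chi g c x := by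
  unfold chi cnt
  simp only [sign_flip]
  rw [prod_mul_distrib, prod_ite]
  simp

lemma pw_flip (T : Finset (Fin n)) (y z : Fin n → Bool) {v : Fin n} (hv : v ∈ T) :
    pw T (update y v (!y v)) z = update (pw T y z) v (!(pw T y z v)) := by
  funext u
  by_cases h : u = v
  · subst h; simp [hv, pw]
  · by_cases hu : u ∈ T <;> simp [hu, h, pw]

lemma vanish (T : Finset (Fin n)) (g g' : Fin b → Finset (Fin n)) (c c' : Finset (Fin b))
    (z z' : Fin n → Bool) {v : Fin n} (hv : v ∈ T) (ho : ¬ Even (cnt g c v + cnt g' c' v)) :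
    ∑ y : Fin n → Bool, chi g c (pw T y z) * chi g' c' (pw T y z') = 0 := by
  have hinv : Involutive (fun y : Fin n → Bool => update y v (!y v)) := fun y => by simp
  have h := Equiv.sum_comp hinv.toPerm
    (fun y => chi g c (pw T y z) * chi g' c' (pw T y z'))
  have h2 : ∀ y : Fin n → Bool, chi g c (pw T (update y v (!y v)) z) *
      chi g' c' (pw T (update y v (!y v)) z')
      = -(chi g c (pw T y z) * chi g' c' (pw T y z')) := by
    intro y
    rw [pw_flip T y z hv, pw_flip T y z' hv, chi_flip, chi_flip, mul_mul_mul_comm, ← pow_add,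
      (Nat.not_even_iff_odd.1 ho).neg_one_pow]
    ring
  simp only [Involutive.coe_toPerm, h2, sum_neg_distrib] at h
  linarith

lemma equi (T : Finset (Fin n)) (g g' : Fin b → Finset (Fin n)) (h : Indep T g g')
    (z z' : Fin n → Bool) :
    2 ^ b * #{y | tau g (pw T y z) ∧ tau g' (pw T y z')}
      = #{y | tau g' (pw T y z')} := by
  have h1 : ∑ y : Fin n → Bool, (if tau g (pw T y z) then (2 : ℤ) ^ b else 0) *
      (if tau g' (pw T y z') then (2 : ℤ) ^ b else 0)
      = ∑ y : Fin n → Bool, (if tau g' (pw T y z') then (2 : ℤ) ^ b else 0) := by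
    simp only [ind_eq, sum_mul_sum]
    rw [sum_comm, sum_eq_single ∅]
    · simp [chi]
    · intro c _ hc
      rw [sum_comm]
      refine sum_eq_zero fun c' _ => ?_
      obtain ⟨v, hv, ho⟩ := h c (nonempty_iff_ne_empty.2 hc) c'
      exact vanish T g g' c c' z z' hv ho
    · simp
  have h2 : ∀ (p q : Prop) [Decidable p] [Decidable q], (if p then (2 : ℤ) ^ b else 0) *
      (if q then (2 : ℤ) ^ b else 0) = if p ∧ q then 2 ^ b * 2 ^ b else 0 := by
    intro p q _ _
    by_cases hp : p <;> by_cases hq : q <;> simp [hp, hq]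
  simp only [h2, ← sum_filter, sum_const, nsmul_eq_mul] at h1
  have h3 : (2 : ℤ) ^ b ≠ 0 := by positivity
  have h4 : ((2 : ℤ) ^ b * #{y | tau g (pw T y z) ∧ tau g' (pw T y z')})
      = #{y | tau g' (pw T y z')} := mul_right_cancel₀ h3 (by rw [← h1]; ring)
  exact_mod_cast h4

lemma Indep.own {T U : Finset (Fin n)} {g g' : Fin b → Finset (Fin n)} (h : Indep T g g')
    (hU : T ⊆ U) : Indep U g (fun _ => ∅) := by
  intro c hc c'
  obtain ⟨v, hv, ho⟩ := h c hc ∅
  exact ⟨v, hU hv, by simpa [cnt] using ho⟩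

lemma equi_own (T : Finset (Fin n)) (g : Fin b → Finset (Fin n)) (h : Indep T g (fun _ => ∅))
    (z : Fin n → Bool) : 2 ^ b * #{y | tau g (pw T y z)} = 2 ^ n := by
  simpa [tau, ones] using equi T g _ h z z

section dec
variable (G : Fin n → Fin b → Finset (Fin n)) (J : Finset (Fin n))

/-- the hard function -/
def hard (x : Fin n → Bool) : Prop := ∃ j ∈ J, x j = true ∧ tau (G j) x

/-- typical points for a set `T` of free variables -/
def Typ (T : Finset (Fin n)) (z : Fin n → Bool) : Prop :=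
  ∑ j ∈ J, #{y | tau (G j) (pw T y z)} < 2 ^ n

instance (T : Finset (Fin n)) : DecidablePred (Typ G J T) := fun z => by
  unfold Typ; infer_instance

variable {G J}

lemma decodeA {T : Finset (Fin n)} {j : Fin n} (hJ : j ∈ J) (hT : j ∉ T)
    (hown : Indep T (G j) (fun _ => ∅)) (hg : ∀ j', j' ≠ j → Indep T (G j) (G j'))
    {z z' : Fin n → Bool} (hz : z j = true) (hz' : z' j = false) (ht : Typ G J T z')
    (h : ∀ y, hard G J (pw T y z) → hard G J (pw T y z')) : False := by
  have h1 : #{y | tau (G j) (pw T y z)} ≤ ∑ j' ∈ J.erase j,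
      #{y | tau (G j) (pw T y z) ∧ tau (G j') (pw T y z')} := by
    refine le_trans (card_le_card fun y hy => ?_) card_biUnion_le
    have hy' := (mem_filter.1 hy).2
    obtain ⟨j', hj', a1, a2⟩ := h y ⟨j, hJ, by rw [pw_not hT, hz], hy'⟩
    refine mem_biUnion.2 ⟨j', mem_erase.2 ⟨?_, hj'⟩, mem_filter.2 ⟨mem_univ _, hy', a2⟩⟩
    rintro rfl
    rw [pw_not hT, hz'] at a1
    exact Bool.false_ne_true a1
  have h2 := Nat.mul_le_mul_left (2 ^ b) h1
  rw [equi_own T _ hown, mul_sum,
    sum_congr rfl fun j' hj' => equi T _ _ (hg j' (ne_of_mem_erase hj')) z z'] at h2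
  exact absurd (lt_of_le_of_lt (h2.trans (sum_le_sum_of_subset (erase_subset _ _))) ht)
    (lt_irrefl _)

lemma decodeB {T : Finset (Fin n)} {j : Fin n} (hJ : j ∈ J) (hT : j ∉ T)
    (hown : Indep T (G j) (fun _ => ∅)) {z : Fin n → Bool} (hz : z j = true) (ht : Typ G J T z)
    (h : ∀ y y', hard G J (pw T y z) → hard G J (pw T y' z)) : False := by
  have h0 : 0 < #{y | tau (G j) (pw T y z)} := by
    have := equi_own T _ hown z
    rcases Nat.eq_zero_or_pos #{y | tau (G j) (pw T y z)} with h | h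
    · rw [h] at this; exact absurd this (by simp; positivity)
    · exact h
  obtain ⟨y, hy⟩ := card_pos.1 h0
  have hy' : hard G J (pw T y z) :=
    ⟨j, hJ, by rw [pw_not hT, hz], (mem_filter.1 hy).2⟩
  have h1 : #(univ : Finset (Fin n → Bool)) ≤ ∑ j' ∈ J, #{y | tau (G j') (pw T y z)} := by
    refine le_trans (card_le_card fun y' _ => ?_) card_biUnion_le
    obtain ⟨j', hj', -, a2⟩ := h y y' hy'
    exact mem_biUnion.2 ⟨j', hj', mem_filter.2 ⟨mem_univ _, a2⟩⟩
  have := lt_of_le_of_lt h1 ht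
  simp at this

lemma atyp (hJ : ∀ j ∈ J, Indep univ (G j) (fun _ => ∅)) (hb : 4 * n ≤ 2 ^ b)
    (T : (Fin n → Bool) → Finset (Fin n)) (hT : ∀ y z, T (pw (T z) y z) = T z) :
    #{z | ¬ Typ G J (T z) z} * 4 ≤ 2 ^ n := by
  have hinv : Involutive (fun p : (Fin n → Bool) × (Fin n → Bool) =>
      (pw (T p.1) p.2 p.1, pw (T p.1) p.1 p.2)) := by
    rintro ⟨z, y⟩
    simp only [hT]
    refine Prod.ext ?_ ?_ <;> funext v <;> by_cases hv : v ∈ T z <;> simp [hv, pw]
  have h1 : ∀ j ∈ J, 2 ^ b * ∑ z, #{y | tau (G j) (pw (T z) y z)} = 2 ^ n * 2 ^ n := by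
    intro j hj
    have a1 : ∑ z, #{y | tau (G j) (pw (T z) y z)}
        = ∑ p : (Fin n → Bool) × (Fin n → Bool),
          if tau (G j) (pw (T p.1) p.2 p.1) then 1 else 0 := by
      rw [Fintype.sum_prod_type]
      exact sum_congr rfl fun z _ => card_filter _ _
    have a2 : (∑ p : (Fin n → Bool) × (Fin n → Bool),
          if tau (G j) (pw (T p.1) p.2 p.1) then 1 else 0)
        = ∑ p : (Fin n → Bool) × (Fin n → Bool), if tau (G j) p.1 then 1 else 0 :=
      Equiv.sum_comp hinv.toPerm (fun p => if tau (G j) p.1 then (1 : ℕ) else 0)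
    have a3 := equi_own univ _ (hJ j hj) (fun _ => true)
    simp only [pw_univ] at a3
    rw [a1, a2, Fintype.sum_prod_type, sum_comm]
    dsimp only
    simp only [← card_filter]
    rw [sum_const, smul_eq_mul, mul_left_comm, a3]
    simp
  have h2 : #{z | ¬ Typ G J (T z) z} * 2 ^ n
      ≤ ∑ z, ∑ j ∈ J, #{y | tau (G j) (pw (T z) y z)} := by
    rw [← smul_eq_mul, ← sum_const]
    refine le_trans (sum_le_sum fun z hz => ?_) (sum_le_sum_of_subset (subset_univ _))
    exact not_lt.1 (mem_filter.1 hz).2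
  have h3 : 2 ^ b * (#{z | ¬ Typ G J (T z) z} * 2 ^ n) ≤ n * (2 ^ n * 2 ^ n) := by
    refine (Nat.mul_le_mul_left _ h2).trans ?_
    rw [sum_comm, mul_sum, sum_congr rfl h1, sum_const, smul_eq_mul]
    gcongr
    simpa using card_le_univ J
  refine Nat.le_of_mul_le_mul_right ?_ (show 0 < 2 ^ b * 2 ^ n by positivity)
  calc _ = 4 * (2 ^ b * (#{z | ¬ Typ G J (T z) z} * 2 ^ n)) := by ring
    _ ≤ 4 * (n * (2 ^ n * 2 ^ n)) := by gcongr
    _ = (4 * n) * (2 ^ n * 2 ^ n) := by ring
    _ ≤ 2 ^ b * (2 ^ n * 2 ^ n) := by gcongr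
    _ = _ := by ring

end dec

lemma low_weight (h : ℕ) (hh : h ≤ n) :
    #{z : Fin n → Bool | ones univ z ≤ h} * 2 ^ (n - h) ≤ 3 ^ n := by
  have h1 := prod_univ_sum (R := ℕ) (fun _ : Fin n => (univ : Finset Bool))
    (fun _ c => if c = true then 1 else 2)
  simp only [Fintype.piFinset_univ] at h1
  have h2 : ∏ _i : Fin n, ∑ c : Bool, (if c = true then 1 else 2) = 3 ^ n := by simp
  rw [← h2, h1, ← smul_eq_mul, ← sum_const]
  refine le_trans (sum_le_sum fun z hz => ?_) (sum_le_sum_of_subset (subset_univ _))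
  have h3 := (mem_filter.1 hz).2
  rw [prod_ite, prod_const_one, one_mul, prod_const]
  refine Nat.pow_le_pow_right (by norm_num) ?_
  have := card_filter_add_card_filter_not (s := (univ : Finset (Fin n))) (fun v => z v = true)
  simp only [card_univ, Fintype.card_fin] at this
  unfold ones at h3
  omega

lemma low_weight' (κ : ℕ) (hn : 8 * κ + 16 ≤ n) :
    #{z : Fin n → Bool | ones univ z ≤ 3 * κ + 2} * 4 ≤ 2 ^ n := by
  have h1 := low_weight (n := n) (3 * κ + 2) (by omega)
  obtain ⟨r, rfl⟩ := Nat.exists_eq_add_of_le hn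
  have h2 : 3 ^ (8 * κ + 16 + r) * 2 ^ (3 * κ + 6) ≤ 4 ^ (8 * κ + 16 + r) := by
    calc _ = (3 ^ 8 * 2 ^ 3) ^ (κ + 2) * 3 ^ r := by
          rw [mul_pow, ← pow_mul, ← pow_mul]; ring
      _ ≤ (4 ^ 8) ^ (κ + 2) * 4 ^ r := by gcongr <;> norm_num
      _ = _ := by rw [← pow_mul]; ring
  refine Nat.le_of_mul_le_mul_right ?_
    (show 0 < 2 ^ (8 * κ + 16 + r - (3 * κ + 2)) * 2 ^ (3 * κ + 6) by positivity)
  calc _ = 4 * (#{z : Fin (8 * κ + 16 + r) → Bool | ones univ z ≤ 3 * κ + 2}
        * 2 ^ (8 * κ + 16 + r - (3 * κ + 2)) * 2 ^ (3 * κ + 6)) := by ring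
    _ ≤ 4 * 4 ^ (8 * κ + 16 + r) := by
        gcongr
        exact le_trans (Nat.mul_le_mul_right _ h1) h2
    _ ≤ _ := by
        rw [show (4 : ℕ) = 2 ^ 2 by norm_num, ← pow_mul, ← pow_add, ← pow_add, ← pow_add]
        exact Nat.pow_le_pow_right (by norm_num) (by omega)

lemma card_det (Z : Finset (Fin n → Bool)) (W : Finset (Fin n))
    (h : ∀ z ∈ Z, ∀ z' ∈ Z, (∀ i ∈ W, z i = z' i) → z = z') : #Z ≤ 2 ^ #W := by
  rw [← card_powerset]
  refine card_le_card_of_injOn (fun z => {i ∈ W | z i = true})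
    (fun z _ => mem_coe.2 (mem_powerset.2 (filter_subset _ _))) fun z hz z' hz' e => ?_
  refine h z hz z' hz' fun i hi => ?_
  have := congrArg (fun s => i ∈ s) e
  simp only [mem_filter, hi, true_and, eq_iff_iff] at this
  exact Bool.eq_iff_iff.2 this

end Pool.Agent.MP_ed3b92_lc

end

section

open Finset Function

namespace Pool.Agent.MP_ed3b92_lc

variable {n m : ℕ} (P : DD n m)

open Classical in
/-- the variables mentioned below `u` -/
noncomputable def Vs (u : Fin m) : Finset (Fin n) := {i | P.Mentions u i}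

lemma mem_Vs {u : Fin m} {i : Fin n} : i ∈ Vs P u ↔ P.Mentions u i := by simp [Vs]

lemma Vs_mono {u v : Fin m} (h : P.Edge u v) : Vs P v ⊆ Vs P u := by
  intro i hi
  obtain ⟨w, a, b, h1, h2⟩ := (mem_Vs P).1 hi
  exact (mem_Vs P).2 ⟨w, a, b, h1.head h, h2⟩

lemma Vs_cases {u : Fin m} {i : Fin n} (h : i ∈ Vs P u) :
    (∃ a b, P.lab u = .dec i a b) ∨ ∃ v, P.Edge u v ∧ i ∈ Vs P v := by
  obtain ⟨w, a, b, h1, h2⟩ := (mem_Vs P).1 h
  rcases h1.cases_head with rfl | ⟨v, e, h3⟩
  · exact Or.inl ⟨a, b, h2⟩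
  · exact Or.inr ⟨v, e, (mem_Vs P).2 ⟨w, a, b, h3, h2⟩⟩

lemma edge_dec {u a b : Fin m} {i : Fin n} (h : P.lab u = .dec i a b) (v : Fin m) :
    P.Edge u v ↔ v = a ∨ v = b := by simp [DD.Edge, h]

lemma edge_gate {u a b : Fin m} {op : Bool → Bool → Bool} (h : P.lab u = .gate op a b)
    (v : Fin m) : P.Edge u v ↔ v = a ∨ v = b := by simp [DD.Edge, h]

/-- the local rules for the node functions -/
def Rules (g : Fin m → (Fin n → Bool) → Bool) : Prop :=
  (∀ u c, P.lab u = .sink c → ∀ x, g u x = c) ∧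
  (∀ u i a b, P.lab u = .dec i a b → ∀ x, g u x = if x i = true then g b x else g a x) ∧
  (∀ u op a b, P.lab u = .gate op a b → ∀ x, g u x = op (g a x) (g b x))

lemma dep (hP : P.Valid) {g : Fin m → (Fin n → Bool) → Bool} (hg : Rules P g)
    (x x' : Fin n → Bool) (u : Fin m) : (∀ i ∈ Vs P u, x i = x' i) → g u x = g u x' := by
  induction u using WellFoundedLT.induction with
  | ind u ih =>
    intro h
    have key : ∀ v, P.Edge u v → g v x = g v x' :=
      fun v e => ih v (hP.1 u v e) fun i hi => h i (Vs_mono P e hi)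
    cases hl : P.lab u with
    | sink c => rw [hg.1 u c hl, hg.1 u c hl]
    | dec i a b =>
      rw [hg.2.1 u i a b hl, hg.2.1 u i a b hl, h i ((mem_Vs P).2 ⟨u, a, b, .refl, hl⟩),
        key a ((edge_dec P hl a).2 (Or.inl rfl)), key b ((edge_dec P hl b).2 (Or.inr rfl))]
    | gate op a b =>
      rw [hg.2.2 u op a b hl, hg.2.2 u op a b hl,
        key a ((edge_gate P hl a).2 (Or.inl rfl)), key b ((edge_gate P hl b).2 (Or.inr rfl))]

/-- what the choice `T` of free variables achieves for the function `f` at the point `z` -/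
def Nice (g : Fin m → (Fin n → Bool) → Bool) (pick : Finset (Fin n) → Finset (Fin n)) (κ : ℕ)
    (f : (Fin n → Bool) → Bool) (S U : Finset (Fin n)) (T : (Fin n → Bool) → Finset (Fin n))
    (z : Fin n → Bool) : Prop :=
  T z ⊆ U ∧ #(T z) = κ ∧ (∀ y, T (pw (T z) y z) = T z) ∧
    ((∀ y, f (pw (T z) y z) = f z) ∨ ∃ (v : Fin m) (h : Bool → Bool), Vs P v ⊆ S ∧
      κ ≤ #(Vs P v) ∧ #(Vs P v) ≤ 2 * κ ∧ T z = pick (Vs P v) ∧
      ∀ x, (∀ i, i ∉ Vs P v → x i = z i) → f x = h (g v x))

lemma exists_T (hP : P.Valid) {g : Fin m → (Fin n → Bool) → Bool} (hg : Rules P g)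
    (pick : Finset (Fin n) → Finset (Fin n)) (κ : ℕ)
    (hpick : ∀ U : Finset (Fin n), κ ≤ #U → pick U ⊆ U ∧ #(pick U) = κ) (u : Fin m) :
    ∀ U : Finset (Fin n), Vs P u ⊆ U → (κ ≤ #(Vs P u) ∨ 2 * κ ≤ #U) →
      ∃ T, ∀ z, Nice P g pick κ (g u) (Vs P u) U T z := by
  induction u using WellFoundedLT.induction with
  | ind u ih =>
    intro U hU hc
    rcases lt_or_ge (#(Vs P u)) κ with h1 | h1
    · obtain ⟨a1, a2⟩ := hpick (U \ Vs P u) (by rw [card_sdiff_of_subset hU]; omega)
      exact ⟨fun _ => pick (U \ Vs P u), fun z => ⟨a1.trans sdiff_subset, a2, fun _ => rfl,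
        Or.inl fun y => dep P hP hg _ _ u fun i hi => pw_not fun hp => (mem_sdiff.1 (a1 hp)).2 hi⟩⟩
    rcases le_or_gt (#(Vs P u)) (2 * κ) with h2 | h2
    · obtain ⟨a1, a2⟩ := hpick _ h1
      exact ⟨fun _ => pick (Vs P u), fun z => ⟨a1.trans hU, a2, fun _ => rfl,
        Or.inr ⟨u, id, Subset.rfl, h1, h2, rfl, fun _ _ => rfl⟩⟩⟩
    cases hl : P.lab u with
    | sink c =>
      obtain ⟨i, hi⟩ := card_pos.1 (show 0 < #(Vs P u) by omega)
      rcases Vs_cases P hi with ⟨a, b, h⟩ | ⟨v, e, -⟩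
      · rw [hl] at h; cases h
      · simp [DD.Edge, hl] at e
    | dec i a b =>
      have hi : i ∈ Vs P u := (mem_Vs P).2 ⟨u, a, b, .refl, hl⟩
      have key : ∀ v, P.Edge u v → i ∉ Vs P v ∧
          ∃ T, ∀ z, Nice P g pick κ (g v) (Vs P v) ((Vs P u).erase i) T z := by
        intro v e
        have h3 : i ∉ Vs P v := by
          rw [mem_Vs]
          rcases (edge_dec P hl v).1 e with rfl | rfl
          · exact (hP.2.1 u i _ _ hl).1
          · exact (hP.2.1 u i _ _ hl).2
        refine ⟨h3, ih v (hP.1 u v e) _ (subset_erase.2 ⟨Vs_mono P e, h3⟩) (Or.inr ?_)⟩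
        rw [card_erase_of_mem hi]; omega
      choose h3 T hT using key
      have hch : ∀ z : Fin n → Bool, P.Edge u (if z i = true then b else a) := fun z => by
        rw [edge_dec P hl]; split_ifs <;> simp
      have hgu : ∀ x z : Fin n → Bool, x i = z i → g u x = g (if z i = true then b else a) x := by
        intro x z e
        rw [hg.2.1 u i a b hl, e]; split_ifs <;> rfl
      refine ⟨fun z => T _ (hch z) z, fun z => ?_⟩
      obtain ⟨b1, b2, b3, b4⟩ := hT _ (hch z) z
      have hz : ∀ y, pw (T _ (hch z) z) y z i = z i :=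
        fun y => pw_not fun hp => by simpa using b1 hp
      refine ⟨b1.trans ((erase_subset _ _).trans hU), b2, fun y => ?_, ?_⟩
      · have : ∀ (x : Fin n → Bool) (e : x i = z i), T _ (hch x) = T _ (hch z) := by
          intro x e
          congr 1
          rw [e]
        exact (congrFun (this _ (hz y)) _).trans (b3 y)
      · rcases b4 with b4 | ⟨v, h, c1, c2, c3, c4, c5⟩
        · exact Or.inl fun y => by rw [hgu _ z (hz y), hgu z z rfl, b4]
        · refine Or.inr ⟨v, h, c1.trans (Vs_mono P (hch z)), c2, c3, c4, fun x hx => ?_⟩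
          rw [hgu x z (hx i fun hv => h3 _ (hch z) (c1 hv)), c5 x hx]
    | gate op a b =>
      have key : ∀ (op' : Bool → Bool → Bool) (a' b' : Fin m), P.Edge u b' →
          (∀ x, g u x = op' (g a' x) (g b' x)) → (∀ i ∈ Vs P a', i ∉ Vs P b') →
          κ ≤ #(Vs P b') → ∃ T, ∀ z, Nice P g pick κ (g u) (Vs P u) U T z := by
        intro op' a' b' e hu hd hk
        obtain ⟨T, hT⟩ := ih b' (hP.1 u b' e) _ Subset.rfl (Or.inl hk)
        refine ⟨T, fun z => ?_⟩
        obtain ⟨b1, b2, b3, b4⟩ := hT z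
        refine ⟨b1.trans ((Vs_mono P e).trans hU), b2, b3, ?_⟩
        rcases b4 with b4 | ⟨v, h, c1, c2, c3, c4, c5⟩
        · refine Or.inl fun y => ?_
          rw [hu, hu, b4, dep P hP hg _ z a' fun i hi => pw_not fun hp => hd i hi (b1 hp)]
        · refine Or.inr ⟨v, fun t => op' (g a' z) (h t), c1.trans (Vs_mono P e), c2, c3, c4,
            fun x hx => ?_⟩
          rw [hu, c5 x hx, dep P hP hg x z a' fun i hi => hx i fun hv => hd i hi (c1 hv)]
      have hsub : Vs P u ⊆ Vs P a ∪ Vs P b := by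
        intro i hi
        rcases Vs_cases P hi with ⟨a', b', h⟩ | ⟨v, e, hv⟩
        · rw [hl] at h; cases h
        · rcases (edge_gate P hl v).1 e with rfl | rfl
          · exact mem_union_left _ hv
          · exact mem_union_right _ hv
      have hc := (card_le_card hsub).trans (card_union_le _ _)
      have hd := fun i => hP.2.2 u op a b i hl
      simp only [← mem_Vs] at hd
      rcases le_or_gt κ (#(Vs P b)) with h3 | h3
      · exact key op a b ((edge_gate P hl b).2 (Or.inr rfl)) (hg.2.2 u op a b hl)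
          (fun i h h' => hd i ⟨h, h'⟩) h3
      · exact key (fun s t => op t s) b a ((edge_gate P hl a).2 (Or.inl rfl)) (hg.2.2 u op a b hl)
          (fun i h h' => hd i ⟨h', h⟩) (by omega)

theorem dd_lower {b : ℕ} (G : Fin n → Fin b → Finset (Fin n)) (J : Finset (Fin n)) (κ : ℕ)
    (hn : 8 * κ + 16 ≤ n) (hb : 4 * n ≤ 2 ^ b)
    (hJ : ∀ j, j ∈ J ↔ Indep univ (G j) (fun _ => ∅))
    (hbad : ∀ T : Finset (Fin n), #T = κ →
      #{j | ¬ ∀ j', j' ≠ j → Indep T (G j) (G j')} ≤ 2 * κ + 2)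
    (f : (Fin n → Bool) → Bool) (hf : ∀ x, f x = true ↔ hard G J x)
    (h1 : P.Valid) (h2 : P.Computes f) : 2 ^ n ≤ m * 2 ^ (4 * κ + 5) := by
  have hpick : ∀ U : Finset (Fin n), ∃ W, κ ≤ #U → W ⊆ U ∧ #W = κ := fun U => by
    by_cases h : κ ≤ #U
    · obtain ⟨W, hW⟩ := exists_subset_card_eq h
      exact ⟨W, fun _ => hW⟩
    · exact ⟨∅, fun h' => absurd h' h⟩
  choose pick hpick using hpick
  have : Nontrivial (Fin n) := Fin.nontrivial_iff_two_le.2 (by omega)
  obtain ⟨g, rfl, hg0⟩ := h2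
  have hg : Rules P g := ⟨fun u c h x => by rw [hg0, h], fun u i a b h x => by rw [hg0, h],
    fun u op a b h x => by rw [hg0, h]⟩
  obtain ⟨T, hT⟩ := exists_T P h1 hg pick κ hpick P.root univ (subset_univ _)
    (Or.inr (by simp; omega))
  have hA := atyp (G := G) (J := J) (fun j hj => (hJ j).1 hj) hb T (fun y z => (hT z).2.2.1 y)
  have hB := low_weight' (n := n) κ hn
  have hown : ∀ (T : Finset (Fin n)) j, (∀ j', j' ≠ j → Indep T (G j) (G j')) →
      Indep T (G j) (fun _ => ∅) ∧ j ∈ J := fun T j h => by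
    obtain ⟨j', hj'⟩ := exists_ne j
    exact ⟨(h j' hj').own le_rfl, (hJ j).2 ((h j' hj').own (subset_univ _))⟩
  obtain ⟨Q, hQ⟩ : ∃ Q : Fin m × (Bool → Bool) → Finset (Fin n → Bool), ∀ p z, z ∈ Q p ↔
      Typ G J (pick (Vs P p.1)) z ∧ κ ≤ #(Vs P p.1) ∧ #(Vs P p.1) ≤ 2 * κ ∧
      ∀ x, (∀ i, i ∉ Vs P p.1 → x i = z i) → g P.root x = p.2 (g p.1 x) :=
    ⟨fun p => {z | Typ G J (pick (Vs P p.1)) z ∧ κ ≤ #(Vs P p.1) ∧ #(Vs P p.1) ≤ 2 * κ ∧
      ∀ x, (∀ i, i ∉ Vs P p.1 → x i = z i) → g P.root x = p.2 (g p.1 x)}, by simp⟩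
  have hC : ∀ p, #(Q p) ≤ 2 ^ (4 * κ + 2) := by
    rintro ⟨u, h⟩
    rcases eq_empty_or_nonempty (Q (u, h)) with he | ⟨z0, hz0⟩
    · rw [he]; simp
    obtain ⟨-, b2, b4, -⟩ := (hQ _ _).1 hz0
    obtain ⟨hT1, hT2⟩ := hpick _ b2
    dsimp only at b2 b4 hT1 hT2
    refine (card_det _ (Vs P u ∪
      univ.filter (fun j => ¬ ∀ j', j' ≠ j → Indep (pick (Vs P u)) (G j) (G j'))) ?_).trans
      (Nat.pow_le_pow_right (by norm_num) ((card_union_le _ _).trans ?_))
    swap
    · have := hbad _ hT2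
      omega
    have sym : ∀ z z', z ∈ Q (u, h) → z' ∈ Q (u, h) →
        (∀ i ∈ Vs P u, z i = z' i) → ∀ j, j ∉ Vs P u →
        (∀ j', j' ≠ j → Indep (pick (Vs P u)) (G j) (G j')) → z j = true → z' j = true := by
      intro z z' c d he j hj hg' hz
      obtain ⟨-, -, -, c3⟩ := (hQ _ _).1 c
      obtain ⟨d1, -, -, d3⟩ := (hQ _ _).1 d
      by_contra hz'
      refine decodeA (hown _ j hg').2 (fun h => hj (hT1 h)) (hown _ j hg').1 hg' hz
        (by simpa using hz') d1 fun y hy => ?_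
      rw [← hf] at hy ⊢
      rw [← hy, c3 _ fun i hi => pw_not fun hp => hi (hT1 hp),
        d3 _ fun i hi => pw_not fun hp => hi (hT1 hp)]
      refine congrArg h (dep P h1 hg _ _ u fun i hi => ?_)
      unfold pw
      rw [he i hi]
    intro z c z' d he
    have he' : ∀ i ∈ Vs P u, z i = z' i := fun i hi => he i (mem_union_left _ hi)
    funext j
    by_cases hj : j ∈ Vs P u ∪
      univ.filter (fun j => ¬ ∀ j', j' ≠ j → Indep (pick (Vs P u)) (G j) (G j'))
    · exact he j hj
    · simp only [mem_union, mem_filter, mem_univ, true_and, not_or, not_not] at hj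
      exact Bool.eq_iff_iff.2 ⟨sym z z' c d he' j hj.1 hj.2,
        sym z' z d c (fun i hi => (he' i hi).symm) j hj.1 hj.2⟩
  have hD : ∀ z, Typ G J (T z) z → (∀ y, g P.root (pw (T z) y z) = g P.root z) →
      ones univ z ≤ 3 * κ + 2 := by
    intro z ht hconst
    have hT2 := (hT z).2.1
    refine (card_le_card (t := T z ∪
      univ.filter (fun j => ¬ ∀ j', j' ≠ j → Indep (T z) (G j) (G j'))) fun j hj => ?_).trans
      ((card_union_le _ _).trans ?_)
    · by_contra hj'
      simp only [mem_union, mem_filter, mem_univ, true_and, not_or, not_not] at hj'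
      refine decodeB (hown _ j hj'.2).2 hj'.1 (hown _ j hj'.2).1 (mem_filter.1 hj).2 ht
        fun y y' hy => ?_
      rw [← hf, hconst] at hy ⊢
      exact hy
    · have := hbad _ hT2
      omega
  have hE : #(univ : Finset (Fin n → Bool)) ≤ #{z | ¬ Typ G J (T z) z}
      + #{z : Fin n → Bool | ones univ z ≤ 3 * κ + 2} + m * 4 * 2 ^ (4 * κ + 2) := by
    have a1 := card_biUnion_le_card_mul univ _ _ fun p _ => hC p
    simp only [card_univ, Fintype.card_prod, Fintype.card_fin, Fintype.card_fun,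
      Fintype.card_bool] at a1
    refine le_trans (card_le_card fun z _ => ?_) ((card_union_le _ _).trans
      (Nat.add_le_add (card_union_le _ _) a1))
    by_cases c1 : Typ G J (T z) z
    · rcases (hT z).2.2.2 with c2 | ⟨v, h, -, c2, c3, c4, c5⟩
      · exact mem_union_left _ (mem_union_right _ (mem_filter.2 ⟨mem_univ _, hD z c1 c2⟩))
      · exact mem_union_right _ (mem_biUnion.2 ⟨(v, h), mem_univ _,
          (hQ _ _).2 ⟨c4 ▸ c1, c2, c3, c5⟩⟩)
    · exact mem_union_left _ (mem_union_left _ (mem_filter.2 ⟨mem_univ _, c1⟩))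
  simp only [card_univ, Fintype.card_fun, Fintype.card_bool, Fintype.card_fin] at hE
  rw [show m * 2 ^ (4 * κ + 5) = 2 * (m * 4 * 2 ^ (4 * κ + 2)) by ring]
  omega

end Pool.Agent.MP_ed3b92_lc

end

section

open Finset Function

namespace Pool.Agent.MP_ed3b92_lc

lemma exists_width (n β : ℕ) (hβ : 1 ≤ β) (hn : β ≤ n) :
    ∃ d, n ≤ 2 ^ d * β ∧ 2 ^ d * β ≤ 2 * n := by
  have hex : ∃ d, n ≤ 2 ^ d * β := ⟨n, (Nat.lt_two_pow_self).le.trans (Nat.le_mul_of_pos_right _ hβ)⟩
  refine ⟨Nat.find hex, Nat.find_spec hex, ?_⟩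
  rcases h : Nat.find hex with _ | e
  · simp; omega
  · have := Nat.find_min hex (m := e) (by omega)
    rw [pow_succ]
    nlinarith

theorem system (n k : ℕ) (hk : 1000000 * (Nat.log 2 n + 1) ≤ k) (hkn : k ≤ n) :
    ∃ F : Fm n, F.size * k ^ 2 ≤ 1000000 * n ^ 3 * (Nat.log 2 n + 1) ^ 3 ∧
      ∃ (b : ℕ) (G : Fin n → Fin b → Finset (Fin n)) (J : Finset (Fin n)) (κ : ℕ),
        8 * κ + 16 ≤ k ∧ 4 * n ≤ 2 ^ b ∧ (∀ j, j ∈ J ↔ Indep univ (G j) (fun _ => ∅)) ∧
        (∀ T : Finset (Fin n), #T = κ →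
          #{j | ¬ ∀ j', j' ≠ j → Indep T (G j) (G j')} ≤ 2 * κ + 2) ∧
        ∀ x, F.eval x = true ↔ hard G J x := by
  have hn : n ≤ 2 ^ (Nat.log 2 n + 1) := (Nat.lt_pow_succ_log_self (by norm_num) n).le
  generalize hl : Nat.log 2 n + 1 = l at hn hk
  have hl1 : 1 ≤ l := by omega
  obtain ⟨β, hβ⟩ : ∃ β, β = (k - 16) / (8 * (5 * l + 4)) := ⟨_, rfl⟩
  have hβ2 : 2 ≤ β := by
    rw [hβ, Nat.le_div_iff_mul_le (by omega)]; omega
  have h1 : β * (8 * (5 * l + 4)) ≤ k - 16 := hβ ▸ Nat.div_mul_le_self _ _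
  have h2 : k - 16 < (β + 1) * (8 * (5 * l + 4)) := by
    rw [← Nat.div_lt_iff_lt_mul (by omega), ← hβ]; omega
  have h3 : 8 * (β * (5 * l + 4)) + 16 ≤ k := by
    have : β * (8 * (5 * l + 4)) = 8 * (β * (5 * l + 4)) := by ring
    omega
  have h4 : k ≤ 160 * (l * β) := by
    have : k < 16 + (β + 1) * (8 * (5 * l + 4)) := by omega
    nlinarith
  have h5 : β ≤ n := by nlinarith
  obtain ⟨d, hd1, hd2⟩ := exists_width n β (by omega) h5
  obtain ⟨G, hG1, hG2⟩ := exists_system (n := n) (w := 2 ^ d) (β := β) l hl1 hn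
    (fun v => ⟨v.val / β, (Nat.div_lt_iff_lt_mul (by omega)).2 (lt_of_lt_of_le v.2 hd1)⟩)
    (fun v => ⟨v.val % β, Nat.mod_lt _ (by omega)⟩)
    (fun u v a1 a2 => Fin.ext (by
      rw [← Nat.div_add_mod u.val β, ← Nat.div_add_mod v.val β,
        show u.val / β = v.val / β from congrArg Fin.val a1,
        show u.val % β = v.val % β from congrArg Fin.val a2])) hβ2 (β * (5 * l + 4)) le_rfl
  obtain ⟨F, hF1, hF2⟩ := rep_F d G hG1 {j | Indep univ (G j) (fun _ => ∅)}
  refine ⟨F, ?_, l + 2, G, univ.filter (fun j => Indep univ (G j) (fun _ => ∅)), β * (5 * l + 4), h3,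
    by rw [pow_add]; omega, fun j => by simp, hG2, hF2⟩
  · have e1 : 2 ^ d * k ≤ 320 * (l * n) := by
      calc 2 ^ d * k ≤ 2 ^ d * (160 * (l * β)) := by gcongr
        _ = 160 * l * (2 ^ d * β) := by ring
        _ ≤ 160 * l * (2 * n) := by gcongr
        _ = _ := by ring
    have e2 : 4 ^ d * k ^ 2 ≤ (320 * (l * n)) ^ 2 := by
      rw [show (4 : ℕ) = 2 ^ 2 by norm_num, ← pow_mul, mul_comm 2 d, pow_mul, ← mul_pow]
      gcongr
    have e3 : 1 ≤ l ^ 3 := Nat.one_le_pow _ _ hl1
    have e4 : 1 ≤ n := by omega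
    calc F.size * k ^ 2 ≤ (n * ((l + 2) * 4 ^ d + 2) + n) * k ^ 2 := by
          gcongr; omega
      _ = n * (l + 2) * (4 ^ d * k ^ 2) + 3 * n * k ^ 2 * 1 := by ring
      _ ≤ n * (3 * l) * (320 * (l * n)) ^ 2 + 3 * n * n ^ 2 * l ^ 3 := by
          gcongr; omega
      _ = 307203 * n ^ 3 * l ^ 3 := by ring
      _ ≤ _ := by gcongr; norm_num

theorem main (n k : ℕ) (hk : 1000000 * (Nat.log 2 n + 1) ≤ k) (hkn : k ≤ n) :
    ∃ F : Fm n, F.size * k ^ 2 ≤ 1000000 * n ^ 3 * (Nat.log 2 n + 1) ^ 3 ∧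
      ∀ (m : ℕ) (P : DD n m), P.Valid → P.Computes F.eval → 2 ^ (n - k) ≤ m := by
  obtain ⟨F, h0, b, G, J, κ, h1, h2, h3, h4, h5⟩ := system n k hk hkn
  refine ⟨F, h0, fun m P r1 r2 => ?_⟩
  have h := dd_lower P G J κ (h1.trans hkn) h2 h3 h4 F.eval h5 r1 r2
  refine Nat.le_of_mul_le_mul_right (le_trans ?_ h) (by positivity)
  rw [← pow_add]
  exact Nat.pow_le_pow_right (by norm_num) (by omega)

end Pool.Agent.MP_ed3b92_lc

end
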