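import Mathlib
import Pool.Agent.Mg.Fed3b92.G391916
import Pool.Agent.MP_ed3b92_lc.Lin
import Pool.Agent.MP_ed3b92_lc.LinDefs

section

open Finset Function Matrix Module

namespace Pool.Agent.MP_ed3b92_lc

lemma card_sub {ι : Type} [Fintype ι] [DecidableEq ι] (S : Submodule (ZMod 2) (ι → ZMod 2))
    (p : (ι → ZMod 2) → Prop) [DecidablePred p] (h : ∀ x, p x ↔ x ∈ S) :
    #{x | p x} = 2 ^ finrank (ZMod 2) S := by
  have h1 := Module.natCard_eq_pow_finrank (K := ZMod 2) (V := S)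
  rw [Nat.card_zmod] at h1
  rw [← h1, ← Fintype.card_subtype, ← Nat.card_eq_fintype_card]
  exact Nat.card_congr (Equiv.subtypeEquivRight h)

lemma rank_count {ι κ : Type} [Fintype ι] [DecidableEq ι] [Fintype κ] [DecidableEq κ]
    (M : Matrix ι κ (ZMod 2)) (u : κ → ZMod 2) :
    #{e | e ᵥ* M = u} * 2 ^ Fintype.card κ ≤ 2 ^ Fintype.card ι * #{y | M *ᵥ y = 0} := by
  have h0 : #{e | e ᵥ* M = u} ≤ #{e | e ᵥ* M = 0} := by
    rcases eq_empty_or_nonempty ({e | e ᵥ* M = u} : Finset (ι → ZMod 2)) with h | ⟨e0, he0⟩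
    · rw [h]; simp
    refine card_le_card_of_injOn (fun e => e - e0) (fun e he => ?_) fun x _ y _ e => by
      simpa using e
    have a1 := (mem_filter.1 he0).2
    have a2 := (mem_filter.1 (mem_coe.1 he)).2
    exact mem_coe.2 (mem_filter.2 ⟨mem_univ _, by rw [sub_vecMul, a1, a2, sub_self]⟩)
  have h1 := card_sub (LinearMap.ker Mᵀ.mulVecLin) (fun e => e ᵥ* M = 0)
    (fun x => by simp)
  have h2 := card_sub (LinearMap.ker M.mulVecLin) (fun y => M *ᵥ y = 0) (fun x => by simp)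
  have h3 := LinearMap.finrank_range_add_finrank_ker Mᵀ.mulVecLin
  have h4 := LinearMap.finrank_range_add_finrank_ker M.mulVecLin
  have h5 := Matrix.rank_transpose M
  simp only [Matrix.rank, finrank_fintype_fun_eq_card] at h3 h4 h5
  refine (Nat.mul_le_mul_right _ h0).trans (le_of_eq ?_)
  rw [h1, h2, ← pow_add, ← pow_add]
  congr 1
  omega

lemma union_bound {α ι : Type} [Fintype α] [DecidableEq α] (I : Finset ι) (E : ι → α → Prop)
    [∀ i, DecidablePred (E i)] (p : α → Prop) [DecidablePred p] (M T : ℕ)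
    (hp : ∀ a, p a → ∃ i ∈ I, E i a) (h : ∀ i ∈ I, #{a | E i a} * M ≤ T) :
    #{a | p a} * M ≤ #I * T := by
  calc _ ≤ #(I.biUnion fun i => ({a | E i a} : Finset α)) * M := by
        refine Nat.mul_le_mul_right _ (card_le_card fun a ha => ?_)
        obtain ⟨i, hi, e⟩ := hp a (mem_filter.1 ha).2
        exact mem_biUnion.2 ⟨i, hi, mem_filter.2 ⟨mem_univ _, e⟩⟩
    _ ≤ ∑ _i ∈ I, T := by
        refine le_trans (Nat.mul_le_mul_right _ card_biUnion_le) ?_
        rw [sum_mul]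
        exact sum_le_sum h
    _ = _ := by simp

lemma many_bad {ι Ω : Type} [Fintype ι] [DecidableEq ι] [Fintype Ω] [DecidableEq Ω] [Nonempty Ω]
    (f : ι → ℤ) (hf : Injective f) (E : ι → (ι → Ω) → Prop) [∀ j, DecidablePred (E j)] (M s : ℕ)
    (hinv : ∀ j m, f j < f m → ∀ A ω, E j (update A m ω) ↔ E j A)
    (hE : ∀ j A, #{ω | E j (update A j ω)} * M ≤ Fintype.card Ω) :
    #{A | s ≤ #{j | E j A}} * M ^ s ≤ 2 ^ Fintype.card ι * Fintype.card (ι → Ω) := by
  refine (union_bound (powersetCard s univ) (fun S A => ∀ j ∈ S, E j A) _ _ _ (fun A hA => ?_)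
    (fun S hS => ?_)).trans (Nat.mul_le_mul_right _ ?_)
  · obtain ⟨S, h1, h2⟩ := exists_subset_card_eq hA
    exact ⟨S, by simp [h2], fun j hj => (mem_filter.1 (h1 hj)).2⟩
  · rw [← (mem_powersetCard.1 hS).2]
    exact chain f hf E M hinv hE S
  · simpa using card_le_univ (powersetCard s (univ : Finset ι))

variable {n w β κ b : ℕ}

/-- Hamming weight -/
def wt (x : Fin n → ZMod 2) : ℕ := #{v | x v ≠ 0}

lemma z2 {t : ZMod 2} (h : t ≠ 0) : t = 1 := by revert t; decide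

lemma ball (h : ℕ) : #{x : Fin n → ZMod 2 | wt x < h + 1} ≤ (n + 1) ^ h := by
  induction h with
  | zero =>
    refine le_trans (card_le_card (t := {0}) fun x hx => ?_) (by simp)
    have := (mem_filter.1 hx).2
    simp only [wt, zero_add, Nat.lt_one_iff, card_eq_zero, filter_eq_empty_iff] at this
    simpa using funext fun v => by simpa using this (mem_univ v)
  | succ h ih =>
    calc _ ≤ #(({x : Fin n → ZMod 2 | wt x < h + 1} : Finset _) ∪ univ.biUnion fun v : Fin n =>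
          image (fun x => update x v 1) {x : Fin n → ZMod 2 | wt x < h + 1}) := by
          refine card_le_card fun x hx => ?_
          have h1 := (mem_filter.1 hx).2
          by_cases h2 : wt x < h + 1
          · exact mem_union_left _ (mem_filter.2 ⟨mem_univ _, h2⟩)
          obtain ⟨v, hv⟩ := card_pos.1 (show 0 < wt x by omega)
          refine mem_union_right _ (mem_biUnion.2 ⟨v, mem_univ _, mem_image.2
            ⟨update x v 0, mem_filter.2 ⟨mem_univ _, ?_⟩, ?_⟩⟩)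
          · have : wt (update x v 0) = wt x - 1 := by
              unfold wt
              rw [← card_erase_of_mem hv]
              congr 1
              ext u
              by_cases e : u = v <;> simp [e]
            omega
          · simp [← z2 (mem_filter.1 hv).2]
      _ ≤ (n + 1) ^ h + n * (n + 1) ^ h := by
          refine (card_union_le _ _).trans (Nat.add_le_add ih ?_)
          simpa using card_biUnion_le_card_mul (univ : Finset (Fin n)) _ _
            fun v _ => card_image_le.trans ih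
      _ = _ := by ring

lemma pad {V : Type} [AddCommGroup V] [Module (ZMod 2) V] [Module.Finite (ZMod 2) V] (s : Set V)
    (h0 : 0 ∈ s) (k : ℕ) (hk : finrank (ZMod 2) (Submodule.span (ZMod 2) s) ≤ k) :
    ∃ f : Fin k → V, (∀ i, f i ∈ s) ∧
      Submodule.span (ZMod 2) s ≤ Submodule.span (ZMod 2) (Set.range f) := by
  obtain ⟨f, h1, h2, -⟩ := Submodule.exists_fun_fin_finrank_span_eq (ZMod 2) s
  refine ⟨fun i => if h : i.val < _ then f ⟨i.val, h⟩ else 0, fun i => ?_, ?_⟩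
  · dsimp only
    split_ifs
    · exact h1 _
    · exact h0
  · refine h2.symm.le.trans (Submodule.span_mono ?_)
    rintro _ ⟨i, rfl⟩
    exact ⟨⟨i.val, lt_of_lt_of_le i.2 hk⟩, by simp⟩

/-- few vectors of the frame have low weight -/
def Cond (β : ℕ) (L : Matrix (Fin n) (Fin κ) (ZMod 2)) (g : ℕ) : Prop :=
  #{y | wt (L *ᵥ y) < β * (g + 1)} * 2 ^ (g + 1) ≤ 2 ^ κ

instance (L : Matrix (Fin n) (Fin κ) (ZMod 2)) (g : ℕ) : Decidable (Cond β L g) := by
  unfold Cond; infer_instance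

lemma wt_zero : wt (0 : Fin n → ZMod 2) = 0 := by simp [wt]

lemma not_cond (hβ : 1 ≤ β) (L : Matrix (Fin n) (Fin κ) (ZMod 2)) {g : ℕ} (hg : κ ≤ g) :
    ¬ Cond β L g := by
  have : 0 < #{y | wt (L *ᵥ y) < β * (g + 1)} :=
    card_pos.2 ⟨0, mem_filter.2 ⟨mem_univ _, by rw [mulVec_zero, wt_zero]; positivity⟩⟩
  have h2 : 2 ^ κ < 2 ^ (g + 1) := Nat.pow_lt_pow_right (by norm_num) (by omega)
  unfold Cond
  exact not_le.2 (lt_of_lt_of_le h2 (Nat.le_mul_of_pos_left _ this))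

lemma cond_mono {L : Matrix (Fin n) (Fin κ) (ZMod 2)} {g g' : ℕ} (h : g ≤ g') (hc : Cond β L g') :
    Cond β L g := by
  refine le_trans (Nat.mul_le_mul (card_le_card fun y hy => ?_) (by gcongr; norm_num)) hc
  exact mem_filter.2 ⟨mem_univ _, lt_of_lt_of_le (mem_filter.1 hy).2 (by gcongr)⟩

lemma card_class (l g : ℕ) (hβ : 1 ≤ β) (hl : n + 1 ≤ 2 ^ l) (h1 : κ * κ ≤ n)
    (h2 : κ * (β * l) ≤ n) :
    #{L : Matrix (Fin n) (Fin κ) (ZMod 2) | ¬ Cond β L g} ≤ 2 ^ (4 * n * (g + 1)) := by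
  have key : ∀ L : Matrix (Fin n) (Fin κ) (ZMod 2),
      ∃ (f : Fin κ → Fin κ → ZMod 2) (f' : Fin (g + 1) → Fin κ → ZMod 2), ¬ Cond β L g →
        (∀ i, wt (L *ᵥ f i) < β * (g + 1)) ∧ ∀ M : Matrix (Fin n) (Fin κ) (ZMod 2),
          (∀ i, M *ᵥ f i = L *ᵥ f i) → (∀ i, M *ᵥ f' i = L *ᵥ f' i) → M = L := by
    intro L
    by_cases hc : Cond β L g
    · exact ⟨0, 0, fun h => absurd hc h⟩
    classical
    obtain ⟨S, hS⟩ : ∃ S, S = Submodule.span (ZMod 2) {y | wt (L *ᵥ y) < β * (g + 1)} := ⟨_, rfl⟩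
    obtain ⟨C, hC⟩ := S.exists_isCompl
    have a1 := Submodule.finrank_add_eq_of_isCompl hC
    rw [finrank_fintype_fun_eq_card, Fintype.card_fin] at a1
    have a2 : #{y | wt (L *ᵥ y) < β * (g + 1)} ≤ 2 ^ finrank (ZMod 2) S := by
      rw [← card_sub S (fun x => x ∈ S) fun _ => Iff.rfl]
      exact card_le_card fun y hy => mem_filter.2 ⟨mem_univ _,
        hS ▸ Submodule.subset_span (mem_filter.1 hy).2⟩
    have a3 : κ < finrank (ZMod 2) S + (g + 1) := by
      refine (Nat.pow_lt_pow_iff_right (a := 2) (by norm_num)).1 ?_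
      rw [pow_add]
      exact lt_of_lt_of_le (not_le.1 hc) (Nat.mul_le_mul_right _ a2)
    obtain ⟨f, b1, b2⟩ := pad {y | wt (L *ᵥ y) < β * (g + 1)}
      (by simp only [Set.mem_ofPred_eq, mulVec_zero, wt_zero]; positivity) κ (by rw [← hS]; omega)
    obtain ⟨f', -, b3⟩ := pad (C : Set (Fin κ → ZMod 2)) C.zero_mem (g + 1)
      (by rw [Submodule.span_eq]; omega)
    rw [Submodule.span_eq] at b3
    refine ⟨f, f', fun _ => ⟨b1, fun M c1 c2 => ext_iff_mulVec.2 fun y => ?_⟩⟩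
    have : (⊤ : Submodule (ZMod 2) (Fin κ → ZMod 2)) ≤
        LinearMap.eqLocus M.mulVecLin L.mulVecLin := by
      rw [← hC.sup_eq_top, hS]
      refine sup_le (b2.trans (Submodule.span_le.2 ?_)) (b3.trans (Submodule.span_le.2 ?_))
      · rintro _ ⟨i, rfl⟩; exact c1 i
      · rintro _ ⟨i, rfl⟩; exact c2 i
    exact this trivial
  choose f f' hf using key
  calc _ ≤ #((univ : Finset (Fin κ → Fin κ → ZMod 2)) ×ˢ
        (univ : Finset (Fin (g + 1) → Fin κ → ZMod 2)) ×ˢ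
        (Fintype.piFinset fun _ : Fin κ =>
          ({x : Fin n → ZMod 2 | wt x < β * (g + 1) + 1} : Finset _)) ×ˢ
        (univ : Finset (Fin (g + 1) → Fin n → ZMod 2))) := by
        refine card_le_card_of_injOn
          (fun L => (f L, f' L, fun i => L *ᵥ f L i, fun i => L *ᵥ f' L i)) (fun L hL => ?_)
          fun L hL M hM e => ?_
        · have := (hf L (mem_filter.1 (mem_coe.1 hL)).2).1
          simpa using fun i => (this i).le
        · simp only [Prod.mk.injEq] at e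
          obtain ⟨e1, e2, e3, e4⟩ := e
          refine (hf M (mem_filter.1 (mem_coe.1 hM)).2).2 L (fun i => ?_) fun i => ?_
          · rw [← congrFun e3 i, e1]
          · rw [← congrFun e4 i, e2]
    _ ≤ (2 ^ κ) ^ κ * ((2 ^ κ) ^ (g + 1) * (((2 ^ l) ^ (β * (g + 1))) ^ κ * (2 ^ n) ^ (g + 1))) := by
        simp only [card_product, card_univ, Fintype.card_fun, ZMod.card, Fintype.card_fin,
          Fintype.card_piFinset, prod_const]
        gcongr
        exact (ball _).trans (by gcongr)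
    _ ≤ _ := by
        simp only [← pow_mul, ← pow_add]
        refine Nat.pow_le_pow_right (by norm_num) ?_
        have : κ ≤ n := by nlinarith
        have e : l * (β * (g + 1)) * κ = κ * (β * l) * (g + 1) := by ring
        rw [e]
        nlinarith [Nat.mul_le_mul_right (g + 1) h2, Nat.mul_le_mul_right (g + 1) this]

lemma cond_start {L : Matrix (Fin n) (Fin κ) (ZMod 2)} {Q : Matrix (Fin κ) (Fin n) (ZMod 2)}
    (h : Q * L = 1) (hβ : 1 ≤ β) (g : ℕ) (hκ : κ = 8 * (β * (g + 1))) : Cond β L g := by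
  have h1 : Submodule.span (ZMod 2) (Set.range L) = ⊤ := by
    refine top_le_iff.1 fun c _ => ?_
    rw [← vecMul_one c, ← h, ← vecMul_vecMul, vecMul_eq_sum]
    exact Submodule.sum_mem _ fun v _ => Submodule.smul_mem _ _ (Submodule.subset_span ⟨v, rfl⟩)
  obtain ⟨f, a1, a2, a3⟩ := Submodule.exists_fun_fin_finrank_span_eq (ZMod 2) (Set.range L)
  have a4 : finrank (ZMod 2) (Submodule.span (ZMod 2) (Set.range L)) = κ := by rw [h1]; simp
  generalize finrank (ZMod 2) (Submodule.span (ZMod 2) (Set.range L)) = r at f a1 a2 a3 a4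
  subst a4
  choose v hv using a1
  have h2 : #{y | wt (L *ᵥ y) < β * (g + 1)} ≤ #{z : Fin r → Bool | ones univ z ≤ β * (g + 1)} := by
    refine card_le_card_of_injOn (fun y i => decide (f i ⬝ᵥ y ≠ 0)) (fun y hy => ?_)
      fun y _ y' _ e => ?_
    · refine mem_coe.2 (mem_filter.2 ⟨mem_univ _, le_trans ?_ (mem_filter.1 (mem_coe.1 hy)).2.le⟩)
      refine card_le_card_of_injOn v (fun i hi => ?_) fun i _ j _ e => a3.injective ?_
      · have : f i ⬝ᵥ y ≠ 0 := of_decide_eq_true (mem_filter.1 (mem_coe.1 hi)).2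
        rw [← hv i] at this
        exact mem_coe.2 (mem_filter.2 ⟨mem_univ _, this⟩)
      · rw [← hv i, ← hv j, e]
    · have b1 : ∀ p ∈ Submodule.span (ZMod 2) (Set.range f), p ⬝ᵥ y = p ⬝ᵥ y' := by
        intro p hp
        induction hp using Submodule.span_induction with
        | mem x hx =>
          obtain ⟨i, rfl⟩ := hx
          have : decide (f i ⬝ᵥ y ≠ 0) = decide (f i ⬝ᵥ y' ≠ 0) := congrFun e i
          revert this
          generalize f i ⬝ᵥ y = s, f i ⬝ᵥ y' = t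
          revert s t; decide
        | zero => simp
        | add x z _ _ c1 c2 => rw [add_dotProduct, add_dotProduct, c1, c2]
        | smul a x _ c => rw [smul_dotProduct, smul_dotProduct, c]
      funext i
      simpa using b1 (Pi.single i 1) (by rw [a2, h1]; trivial)
  have h3 := low_weight (n := r) (β * (g + 1)) (by omega)
  generalize #{z : Fin r → Bool | ones univ z ≤ β * (g + 1)} = c at h2 h3
  have h4 : g + 1 ≤ β * (g + 1) := Nat.le_mul_of_pos_left _ hβ
  refine le_trans (Nat.mul_le_mul h2 (Nat.pow_le_pow_right (by norm_num) h4)) ?_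
  clear h2
  generalize β * (g + 1) = t at h3 h4 hκ
  subst hκ
  refine Nat.le_of_mul_le_mul_right ?_ (show 0 < 2 ^ (6 * t) by positivity)
  calc c * 2 ^ t * 2 ^ (6 * t) = c * 2 ^ (8 * t - t) := by
        rw [show 8 * t - t = t + 6 * t by omega]; ring
    _ ≤ 3 ^ (8 * t) := h3
    _ = (3 ^ 8) ^ t := by rw [pow_mul]
    _ ≤ (2 ^ 14) ^ t := Nat.pow_le_pow_left (by norm_num) t
    _ = _ := by rw [← pow_mul, ← pow_add]; congr 1; omega

end Pool.Agent.MP_ed3b92_lc

end

section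

open Finset Function Matrix Module

namespace Pool.Agent.MP_ed3b92_lc

variable {n w β κ b N : ℕ} (blk : Fin n → Fin w) (pos : Fin n → Fin β)

/-- row `B` is the unit vector at the variable chosen in block `B` (or zero) -/
def Smat (γ : Fin w → Fin β) : Matrix (Fin w) (Fin n) (ZMod 2) :=
  Matrix.of fun B v => if blk v = B ∧ γ B = pos v then 1 else 0

/-- sample space of one guard -/
abbrev Om (w β : ℕ) : Type := (Fin w → Fin β) × (Fin w → ZMod 2)

/-- the guard vector -/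
def gv (ω : Om w β) : Fin n → ZMod 2 := ω.2 ᵥ* Smat blk pos ω.1

/-- the matrix of a term -/
def mat (R : Fin b → Om w β) : Matrix (Fin b) (Fin n) (ZMod 2) :=
  Matrix.of fun i => gv blk pos (R i)

lemma gv_supp (ω : Om w β) (v : Fin n) (h : gv blk pos ω v ≠ 0) : v ∈ supp blk pos ω.1 := by
  by_contra hv
  refine h ?_
  unfold gv vecMul dotProduct
  refine sum_eq_zero fun B _ => ?_
  have : ¬ (blk v = B ∧ ω.1 B = pos v) := by
    rintro ⟨rfl, e⟩
    exact hv (by simp [supp, e])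
  simp [Smat, this]

variable {blk pos} (hinj : ∀ u v, blk u = blk v → pos u = pos v → u = v) (hβ : 2 ≤ β)
include hinj

lemma S_zero (γ : Fin w → Fin β) (x : Fin n → ZMod 2) (h : Smat blk pos γ *ᵥ x = 0) (v : Fin n)
    (hv : v ∈ supp blk pos γ) : x v = 0 := by
  have h1 : γ (blk v) = pos v := by simpa [supp] using hv
  have h2 := congrFun h (blk v)
  simp only [mulVec, dotProduct, Smat, of_apply, Pi.zero_apply] at h2
  rw [sum_eq_single v (fun u _ hu => by
    rw [if_neg (fun e => hu (hinj u v e.1 (e.2.symm.trans h1))), zero_mul]) (by simp)] at h2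
  simpa [h1] using h2

include hβ

lemma point (L : Matrix (Fin n) (Fin κ) (ZMod 2)) (u : Fin κ → ZMod 2) (t : ℕ) :
    #{ω : Om w β | gv blk pos ω ᵥ* L = u} * 2 ^ κ * 2 ^ t ≤ Fintype.card (Om w β) *
      (#{y | wt (L *ᵥ y) < β * t} * 2 ^ t + #{y | ¬ wt (L *ᵥ y) < β * t}) := by
  have h1 : #{ω : Om w β | gv blk pos ω ᵥ* L = u}
      = ∑ γ : Fin w → Fin β, #{e | e ᵥ* (Smat blk pos γ * L) = u} := by
    rw [card_filter, Fintype.sum_prod_type]
    exact sum_congr rfl fun γ _ => by rw [card_filter]; simp only [gv, vecMul_vecMul]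
  have h2 : ∑ γ : Fin w → Fin β, #{y | (Smat blk pos γ * L) *ᵥ y = 0}
      = ∑ y, #{γ : Fin w → Fin β | Smat blk pos γ *ᵥ (L *ᵥ y) = 0} := by
    simp only [card_filter, mulVec_mulVec]
    exact sum_comm
  have h3 : ∀ y, #{γ : Fin w → Fin β | Smat blk pos γ *ᵥ (L *ᵥ y) = 0} * 2 ^ t
      ≤ Fintype.card (Fin w → Fin β) * if wt (L *ᵥ y) < β * t then 2 ^ t else 1 := by
    intro y
    split_ifs with hy
    · exact Nat.mul_le_mul_right _ (card_le_univ _)
    · rw [mul_one]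
      refine le_trans (Nat.mul_le_mul_right _ (card_le_card fun γ hγ => ?_))
        (pattern blk pos hinj hβ {v | (L *ᵥ y) v ≠ 0} t (not_lt.1 hy) (fun _ => False))
      refine mem_filter.2 ⟨mem_univ _, fun v hv => iff_false_intro fun hs => ?_⟩
      exact (mem_filter.1 hv).2 (S_zero hinj γ _ (mem_filter.1 hγ).2 v hs)
  calc _ = (∑ γ : Fin w → Fin β, #{e | e ᵥ* (Smat blk pos γ * L) = u} * 2 ^ κ) * 2 ^ t := by
        rw [h1, sum_mul]
    _ ≤ (∑ γ : Fin w → Fin β, 2 ^ w * #{y | (Smat blk pos γ * L) *ᵥ y = 0}) * 2 ^ t := by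
        refine Nat.mul_le_mul_right _ (sum_le_sum fun γ _ => ?_)
        simpa using rank_count (Smat blk pos γ * L) u
    _ = 2 ^ w * ∑ y, #{γ : Fin w → Fin β | Smat blk pos γ *ᵥ (L *ᵥ y) = 0} * 2 ^ t := by
        rw [← mul_sum, h2, mul_assoc, sum_mul]
    _ ≤ 2 ^ w * ∑ y, Fintype.card (Fin w → Fin β) * if wt (L *ᵥ y) < β * t then 2 ^ t else 1 := by
        exact Nat.mul_le_mul_left _ (sum_le_sum fun y _ => h3 y)
    _ = _ := by
        rw [← mul_sum, sum_ite, sum_const, sum_const, Fintype.card_prod]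
        simp; ring

lemma point_cond {L : Matrix (Fin n) (Fin κ) (ZMod 2)} {g : ℕ} (hc : Cond β L g)
    (u : Fin κ → ZMod 2) :
    #{ω : Om w β | gv blk pos ω ᵥ* L = u} * 2 ^ g ≤ Fintype.card (Om w β) := by
  have h1 := point hinj hβ L u (g + 1)
  have h2 : #{y | ¬ wt (L *ᵥ y) < β * (g + 1)} ≤ 2 ^ κ := by
    simpa using card_le_univ ({y | ¬ wt (L *ᵥ y) < β * (g + 1)} : Finset _)
  refine Nat.le_of_mul_le_mul_right ?_ (show 0 < 2 ^ κ + 2 ^ κ by positivity)
  calc _ = #{ω : Om w β | gv blk pos ω ᵥ* L = u} * 2 ^ κ * 2 ^ (g + 1) := by ring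
    _ ≤ _ := h1.trans (Nat.mul_le_mul_left _ (Nat.add_le_add hc h2))

lemma point_far {δ : Fin n → ZMod 2} (h : β ≤ wt δ) :
    #{ω : Om w β | gv blk pos ω ⬝ᵥ δ = 0} * 4 ≤ Fintype.card (Om w β) * 3 := by
  have h1 := point hinj hβ (Matrix.of fun v (_ : Fin 1) => δ v) 0 1
  have e : ∀ y : Fin 1 → ZMod 2, (Matrix.of fun v (_ : Fin 1) => δ v) *ᵥ y = y 0 • δ := by
    intro y; funext v; simp [mulVec, dotProduct, mul_comm]
  have a1 : #{y | wt ((Matrix.of fun v (_ : Fin 1) => δ v) *ᵥ y) < β * 1} ≤ 1 := by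
    refine le_trans (card_le_card (t := {0}) fun y hy => ?_) (by simp)
    have := (mem_filter.1 hy).2
    rw [e] at this
    by_contra h0
    have : y 0 = 1 := z2 fun e => h0 (by
      rw [mem_singleton]; funext k; rw [Subsingleton.elim k 0, e]; rfl)
    simp_all
    omega
  have a2 : #{y | ¬ wt ((Matrix.of fun v (_ : Fin 1) => δ v) *ᵥ y) < β * 1} ≤ 1 := by
    refine le_trans (card_le_card (t := {fun _ => 1}) fun y hy => ?_) (by simp)
    have := (mem_filter.1 hy).2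
    rw [e] at this
    have : y 0 = 1 := z2 fun e => this (by rw [e, zero_smul, wt_zero]; omega)
    rw [mem_singleton]; funext k; rw [Subsingleton.elim k 0, this]
  have a3 : #{ω : Om w β | gv blk pos ω ⬝ᵥ δ = 0}
      ≤ #{ω : Om w β | gv blk pos ω ᵥ* (Matrix.of fun v (_ : Fin 1) => δ v) = 0} :=
    card_le_card fun ω hω => mem_filter.2 ⟨mem_univ _, funext fun _ => (mem_filter.1 hω).2⟩
  calc _ ≤ #{ω : Om w β | gv blk pos ω ᵥ* (Matrix.of fun v (_ : Fin 1) => δ v) = 0}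
        * 2 ^ 1 * 2 ^ 1 := by omega
    _ ≤ _ := h1.trans (Nat.mul_le_mul_left _ (by omega))

lemma term_far {δ : Fin n → ZMod 2} (h : β ≤ wt δ) (hb : 20 ≤ b) :
    #{R : Fin b → Om w β | mat blk pos R *ᵥ δ = 0} * 2 ^ 8 ≤ Fintype.card (Fin b → Om w β) := by
  have h1 : ({R : Fin b → Om w β | mat blk pos R *ᵥ δ = 0} : Finset _)
      = Fintype.piFinset fun _ => ({ω : Om w β | gv blk pos ω ⬝ᵥ δ = 0} : Finset _) := by
    ext R
    simp only [mem_filter, mem_univ, true_and, Fintype.mem_piFinset]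
    exact funext_iff
  have h2 := Nat.pow_le_pow_left (point_far hinj hβ h) b
  obtain ⟨r, rfl⟩ := Nat.exists_eq_add_of_le hb
  have h3 : 2 ^ 8 * 3 ^ (20 + r) ≤ 4 ^ (20 + r) := by
    rw [pow_add, pow_add, ← mul_assoc]
    exact Nat.mul_le_mul (by norm_num) (Nat.pow_le_pow_left (by norm_num) r)
  rw [h1, Fintype.card_piFinset, prod_const, card_univ, Fintype.card_fun, Fintype.card_fin]
  rw [mul_pow, mul_pow] at h2
  refine Nat.le_of_mul_le_mul_right (le_trans ?_ h2) (by positivity)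
  rw [mul_assoc]
  exact Nat.mul_le_mul_left _ h3

lemma rowfib {L : Matrix (Fin n) (Fin κ) (ZMod 2)} {g : ℕ} (hc : Cond β L g)
    (c : Fin b → ZMod 2) (k : Fin b) (hk : c k = 1) (tgt : (Fin b → Om w β) → Fin κ → ZMod 2)
    (ht : ∀ R ω, tgt (update R k ω) = tgt R) :
    #{R : Fin b → Om w β | c ᵥ* (mat blk pos R * L) = tgt R} * 2 ^ g
      ≤ Fintype.card (Fin b → Om w β) := by
  have : Nonempty (Om w β) := ⟨(fun _ => ⟨0, by omega⟩, 0)⟩
  have h := fib k (fun _ : Fin b → Om w β => True)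
    (fun R => c ᵥ* (mat blk pos R * L) = tgt R) (2 ^ g) (fun _ _ => Iff.rfl) (fun R => by
      refine le_trans (le_of_eq ?_) (point_cond hinj hβ hc
        (tgt R - (∑ i ∈ univ.erase k, c i • gv blk pos (R i)) ᵥ* L))
      congr 2
      ext ω
      have : c ᵥ* mat blk pos (update R k ω)
          = gv blk pos ω + ∑ i ∈ univ.erase k, c i • gv blk pos (R i) := by
        rw [vecMul_eq_sum, ← add_sum_erase _ _ (mem_univ k), hk, one_smul]
        congr 1
        · exact congrArg (gv blk pos) (update_self k ω R)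
        · exact sum_congr rfl fun i hi => congrArg (fun r => c i • gv blk pos r)
            (update_of_ne (ne_of_mem_erase hi) ω R)
      simp only [mem_filter, mem_univ, true_and]
      rw [← vecMul_vecMul, this, ht, add_vecMul, eq_sub_iff_add_eq])
  simpa using h

omit hinj hβ in
/-- failure of a term `R` that involves no other term -/
def BadS (R : Matrix (Fin b) (Fin n) (ZMod 2)) (L L' : Matrix (Fin n) (Fin κ) (ZMod 2)) : Prop :=
  (∃ c k, c k = 1 ∧ c ᵥ* (R * L) = 0) ∨ ∃ i c k, k ≠ i ∧ c k = 1 ∧ c ᵥ* (R * L) = (R * L') i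

instance (R : Matrix (Fin b) (Fin n) (ZMod 2)) (L L' : Matrix (Fin n) (Fin κ) (ZMod 2)) :
    Decidable (BadS R L L') := by unfold BadS; infer_instance

lemma term_fail {L : Matrix (Fin n) (Fin κ) (ZMod 2)} (L' : Matrix (Fin n) (Fin κ) (ZMod 2))
    {g : ℕ} (hc : Cond β L g) (O : Fin N → Matrix (Fin b) (Fin n) (ZMod 2)) :
    #{R : Fin b → Om w β | BadS (mat blk pos R) L L' ∨ ∃ j, ¬ Ind (mat blk pos R * L) (O j * L')}
      * 2 ^ g ≤ (N + b + 1) * (2 ^ b * (2 ^ b * b)) * Fintype.card (Fin b → Om w β) := by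
  refine (union_bound (univ : Finset ((Fin N ⊕ Fin b ⊕ Unit) × (Fin b → ZMod 2) ×
    (Fin b → ZMod 2) × Fin b)) (fun p R => p.2.1 p.2.2.2 = 1 ∧ p.1 ≠ .inr (.inl p.2.2.2) ∧
      p.2.1 ᵥ* (mat blk pos R * L) = Sum.elim (fun j => p.2.2.1 ᵥ* (O j * L'))
        (Sum.elim (fun i => (mat blk pos R * L') i) (fun _ => 0)) p.1) _ _
      (Fintype.card (Fin b → Om w β)) ?_ ?_).trans ?_
  · rintro R ((⟨c, k, h1, h2⟩ | ⟨i, c, k, h1, h2, h3⟩) | ⟨j, h⟩)
    · exact ⟨(.inr (.inr ()), c, 0, k), mem_univ _, h1, by simp, h2⟩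
    · exact ⟨(.inr (.inl i), c, 0, k), mem_univ _, h2, by simpa using h1.symm, h3⟩
    · simp only [Ind, not_forall] at h
      obtain ⟨c, c', h1, h2⟩ := h
      obtain ⟨k, hk⟩ := Function.ne_iff.1 h2
      exact ⟨(.inl j, c, c', k), mem_univ _, z2 hk, by simp, h1⟩
  · rintro ⟨t, c, c', k⟩ -
    by_cases h : c k = 1 ∧ t ≠ .inr (.inl k)
    · refine le_trans (Nat.mul_le_mul_right _ (card_le_card fun R hR =>
        mem_filter.2 ⟨mem_univ _, (mem_filter.1 hR).2.2.2⟩)) (rowfib hinj hβ hc c k h.1 _ ?_)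
      intro R ω
      rcases t with j | i | u
      · rfl
      · have hi : i ≠ k := fun e => h.2 (by rw [e])
        exact congrArg (fun r => gv blk pos r ᵥ* L') (update_of_ne hi ω R)
      · rfl
    · rw [card_eq_zero.2 (filter_eq_empty_iff.2 fun R _ hR => h ⟨hR.1, hR.2.1⟩)]
      simp
  · simp [add_assoc]

lemma pair_bad (l : ℕ) (hl : n + 1 ≤ 2 ^ l) (h1 : κ * κ ≤ n) (h2 : κ * (β * l) ≤ n)
    (f : Fin (128 * n) → ℤ) (hf : Injective f) :
    #{A : Fin (128 * n) → Fin (l + 20) → Om w β | ∃ g < κ,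
      ∃ L L' : Matrix (Fin n) (Fin κ) (ZMod 2), 8 * l + 136 ≤ g ∧ Cond β L g ∧
        ¬ Cond β L (g + 1) ∧ ¬ Cond β L' (g + 1) ∧ 32 * n ≤ #{j | BadS (mat blk pos (A j)) L L' ∨
          ∃ j', f j' < f j ∧ ¬ Ind (mat blk pos (A j) * L) (mat blk pos (A j') * L')}} * 4
      ≤ Fintype.card (Fin (128 * n) → Fin (l + 20) → Om w β) := by
  have : Nonempty (Fin (l + 20) → Om w β) := ⟨fun _ => (fun _ => ⟨0, by omega⟩, 0)⟩
  have key : ∀ (g : ℕ) (L L' : Matrix (Fin n) (Fin κ) (ZMod 2)), 8 * l + 136 ≤ g → Cond β L g →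
      #{A : Fin (128 * n) → Fin (l + 20) → Om w β | 32 * n ≤ #{j | BadS (mat blk pos (A j)) L L' ∨
          ∃ j', f j' < f j ∧ ¬ Ind (mat blk pos (A j) * L) (mat blk pos (A j') * L')}}
        * (2 ^ (g - (4 * l + 68))) ^ (32 * n)
        ≤ 2 ^ (128 * n) * Fintype.card (Fin (128 * n) → Fin (l + 20) → Om w β) := by
    intro g L L' hg hc
    have := many_bad f hf (fun j (A : Fin (128 * n) → Fin (l + 20) → Om w β) =>
      BadS (mat blk pos (A j)) L L' ∨
        ∃ j', f j' < f j ∧ ¬ Ind (mat blk pos (A j) * L) (mat blk pos (A j') * L'))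
      (2 ^ (g - (4 * l + 68))) (32 * n) ?_ ?_
    · rwa [Fintype.card_fin] at this
    · intro j m hjm A ω
      have h1 : j ≠ m := fun e => by rw [e] at hjm; exact lt_irrefl _ hjm
      rw [update_of_ne h1]
      refine or_congr_right (exists_congr fun j' => and_congr_right fun h => ?_)
      have h2 : j' ≠ m := fun e => by rw [e] at h; exact lt_asymm h hjm
      rw [update_of_ne h2]
    · intro j A
      refine Nat.le_of_mul_le_mul_right ?_ (show 0 < 2 ^ (4 * l + 68) by positivity)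
      rw [mul_assoc, ← pow_add, Nat.sub_add_cancel (by omega)]
      refine le_trans (Nat.mul_le_mul_right _ (card_le_card fun R hR => ?_))
        ((term_fail hinj hβ L' hc fun j => mat blk pos (A j)).trans ?_)
      · have := (mem_filter.1 hR).2
        rw [update_self] at this
        refine mem_filter.2 ⟨mem_univ _, this.imp_right ?_⟩
        rintro ⟨j', h, h'⟩
        have h1 : j' ≠ j := fun e => by rw [e] at h; exact lt_irrefl _ h
        rw [update_of_ne h1] at h'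
        exact ⟨j', h'⟩
      · rw [mul_comm]
        refine Nat.mul_le_mul_left _ ?_
        have a1 : l + 20 ≤ 2 ^ (l + 20) := Nat.lt_two_pow_self.le
        have a2 : l < 2 ^ l := Nat.lt_two_pow_self
        calc _ ≤ 2 ^ (l + 8) * (2 ^ (l + 20) * (2 ^ (l + 20) * 2 ^ (l + 20))) := by
              gcongr; rw [pow_add]; omega
          _ = _ := by ring
  have hκ : κ ≤ n := by nlinarith
  refine Nat.le_of_mul_le_mul_right ?_ (show 0 < 2 ^ n by positivity)
  rw [mul_assoc, mul_comm (Fintype.card _)]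
  refine (union_bound (range κ) (fun g (A : Fin (128 * n) → Fin (l + 20) → Om w β) =>
    ∃ L L' : Matrix (Fin n) (Fin κ) (ZMod 2), 8 * l + 136 ≤ g ∧ Cond β L g ∧
        ¬ Cond β L (g + 1) ∧ ¬ Cond β L' (g + 1) ∧ 32 * n ≤ #{j | BadS (mat blk pos (A j)) L L' ∨
          ∃ j', f j' < f j ∧ ¬ Ind (mat blk pos (A j) * L) (mat blk pos (A j') * L')}) _ _
      (Fintype.card (Fin (128 * n) → Fin (l + 20) → Om w β))
      (fun A ⟨g, hg, h⟩ => ⟨g, mem_range.2 hg, h⟩) fun g hg => ?_).trans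
    (Nat.mul_le_mul_right _ (by rw [card_range]; exact hκ.trans Nat.lt_two_pow_self.le))
  by_cases hg' : 8 * l + 136 ≤ g
  swap
  · rw [card_eq_zero.2 (filter_eq_empty_iff.2 fun A _ ⟨_, _, h, _⟩ => hg' h)]; simp
  have hn : 1 ≤ n := by have := mem_range.1 hg; omega
  have h3 := card_class (n := n) (κ := κ) l (g + 1) (by omega : 1 ≤ β) hl h1 h2
  refine Nat.le_of_mul_le_mul_left ?_
    (show 0 < 2 ^ (4 * n * (g + 1 + 1)) * 2 ^ (4 * n * (g + 1 + 1)) * 2 ^ (128 * n) by positivity)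
  have h4 := union_bound
    ((({L | Cond β L g ∧ ¬ Cond β L (g + 1)} : Finset (Matrix (Fin n) (Fin κ) (ZMod 2))) ×ˢ
      ({L | ¬ Cond β L (g + 1)} : Finset (Matrix (Fin n) (Fin κ) (ZMod 2)))))
    (fun p (A : Fin (128 * n) → Fin (l + 20) → Om w β) =>
      32 * n ≤ #{j | BadS (mat blk pos (A j)) p.1 p.2 ∨
          ∃ j', f j' < f j ∧ ¬ Ind (mat blk pos (A j) * p.1) (mat blk pos (A j') * p.2)})
    (fun A => ∃ L L' : Matrix (Fin n) (Fin κ) (ZMod 2), 8 * l + 136 ≤ g ∧ Cond β L g ∧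
        ¬ Cond β L (g + 1) ∧ ¬ Cond β L' (g + 1) ∧ 32 * n ≤ #{j | BadS (mat blk pos (A j)) L L' ∨
          ∃ j', f j' < f j ∧ ¬ Ind (mat blk pos (A j) * L) (mat blk pos (A j') * L')}) _ _
    (fun A ⟨L, L', _, a1, a2, a3, a4⟩ => ⟨(L, L'), by simp [a1, a2, a3], a4⟩)
    (fun p hp => key g p.1 p.2 hg' (mem_filter.1 (mem_product.1 hp).1).2.1)
  rw [mul_left_comm]
  refine le_trans (Nat.mul_le_mul_left _ ?_) (h4.trans ?_)
  · rw [show (4 : ℕ) * 2 ^ n = 2 ^ (2 + n) by ring]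
    simp only [← pow_mul, ← pow_add]
    refine Nat.pow_le_pow_right (by norm_num) ?_
    obtain ⟨r, rfl⟩ := Nat.exists_eq_add_of_le hg'
    rw [show 8 * l + 136 + r - (4 * l + 68) = 4 * l + 68 + r by omega]
    nlinarith [Nat.zero_le (n * l), Nat.zero_le (n * r)]
  · rw [card_product, ← mul_assoc]
    gcongr
    exact le_trans (card_le_card fun L hL => mem_filter.2 ⟨mem_univ _, (mem_filter.1 hL).2.2⟩) h3

lemma far_bad (hn : 1 ≤ n) (hb : 20 ≤ b) :
    #{A : Fin (128 * n) → Fin b → Om w β | ∃ δ, β ≤ wt δ ∧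
      32 * n ≤ #{j | mat blk pos (A j) *ᵥ δ = 0}} * 4
      ≤ Fintype.card (Fin (128 * n) → Fin b → Om w β) := by
  have : Nonempty (Fin b → Om w β) := ⟨fun _ => (fun _ => ⟨0, by omega⟩, 0)⟩
  have h4 := union_bound ({δ | β ≤ wt δ} : Finset (Fin n → ZMod 2))
    (fun δ (A : Fin (128 * n) → Fin b → Om w β) => 32 * n ≤ #{j | mat blk pos (A j) *ᵥ δ = 0})
    (fun A => ∃ δ, β ≤ wt δ ∧ 32 * n ≤ #{j | mat blk pos (A j) *ᵥ δ = 0}) _ _
    (fun A ⟨δ, a1, a2⟩ => ⟨δ, by simp [a1], a2⟩)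
    (fun δ hδ => many_bad (fun j => (j.val : ℤ)) (fun a b h => Fin.ext (by simpa using h))
      (fun j (A : Fin (128 * n) → Fin b → Om w β) => mat blk pos (A j) *ᵥ δ = 0) (2 ^ 8) (32 * n)
      (fun j m hjm A ω => by rw [update_of_ne (fun e => by rw [e] at hjm; exact lt_irrefl _ hjm)])
      (fun j A => by simpa only [update_self] using term_far hinj hβ (mem_filter.1 hδ).2 hb))
  refine Nat.le_of_mul_le_mul_left ?_ (show 0 < 2 ^ n * 2 ^ (128 * n) by positivity)
  rw [mul_left_comm]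
  refine le_trans (Nat.mul_le_mul_left _ ?_) (h4.trans ?_)
  · rw [show (4 : ℕ) = 2 ^ 2 by norm_num]
    simp only [← pow_mul, ← pow_add]
    exact Nat.pow_le_pow_right (by norm_num) (by omega)
  · rw [Fintype.card_fin, ← mul_assoc]
    gcongr
    simpa using card_le_univ ({δ | β ≤ wt δ} : Finset (Fin n → ZMod 2))

lemma exists_A (l : ℕ) (hn : 1 ≤ n) (hl : n + 1 ≤ 2 ^ l) (h1 : κ * κ ≤ n) (h2 : κ * (β * l) ≤ n)
    (hκ : κ = 8 * (β * (8 * l + 136 + 1))) :
    ∃ A : Fin (128 * n) → Fin (l + 20) → Om w β,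
      ∀ (L L' : Matrix (Fin n) (Fin κ) (ZMod 2)) (δ : Fin n → ZMod 2),
      (∃ Q : Matrix (Fin κ) (Fin n) (ZMod 2), Q * L = 1) →
      (∃ Q : Matrix (Fin κ) (Fin n) (ZMod 2), Q * L' = 1) → β ≤ wt δ →
      ∃ j, GoodL (fun j => mat blk pos (A j)) L L' δ j ∨
        GoodL (fun j => mat blk pos (A j)) L' L δ j := by
  have : Nonempty (Fin (128 * n) → Fin (l + 20) → Om w β) :=
    ⟨fun _ _ => (fun _ => ⟨0, by omega⟩, 0)⟩
  have hpos : 0 < Fintype.card (Fin (128 * n) → Fin (l + 20) → Om w β) := Fintype.card_pos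
  have a1 := pair_bad hinj hβ l hl h1 h2 (fun j => (j.val : ℤ))
    (fun a b h => Fin.ext (by simpa using h))
  have a2 := pair_bad hinj hβ l hl h1 h2 (fun j => -(j.val : ℤ))
    (fun a b h => Fin.ext (by simpa using h))
  have a3 := far_bad (b := l + 20) hinj hβ hn (by omega)
  have a4 := (by omega : ∀ a b c N : ℕ, 0 < N → a * 4 ≤ N → b * 4 ≤ N → c * 4 ≤ N →
    a + b + c < N) _ _ _ _ hpos a1 a2 a3
  rw [← card_univ] at a4
  obtain ⟨A, -, hA⟩ := exists_mem_notMem_of_card_lt_card (lt_of_le_of_lt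
    ((card_union_le _ _).trans (Nat.add_le_add_right (card_union_le _ _) _)) a4)
  simp only [mem_union, mem_filter, mem_univ, true_and, not_or, not_exists, not_and, not_le] at hA
  obtain ⟨⟨b1, b2⟩, b3⟩ := hA
  have lev : ∀ L : Matrix (Fin n) (Fin κ) (ZMod 2),
      (∃ Q : Matrix (Fin κ) (Fin n) (ZMod 2), Q * L = 1) →
      ∃ g < κ, 8 * l + 136 ≤ g ∧ Cond β L g ∧ ¬ Cond β L (g + 1) := by
    rintro L ⟨Q, hQ⟩
    have hex : ∃ g, ¬ Cond β L g := ⟨κ, not_cond (by omega) L le_rfl⟩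
    have c1 := Nat.find_spec hex
    have c2 : Nat.find hex ≤ κ := Nat.find_min' hex (not_cond (by omega) L le_rfl)
    have c3 : 8 * l + 136 < Nat.find hex :=
      not_le.1 fun h => c1 (cond_mono h (cond_start hQ (by omega) _ hκ))
    refine ⟨Nat.find hex - 1, by omega, by omega, not_not.1 (Nat.find_min hex (by omega)), ?_⟩
    rwa [Nat.sub_add_cancel (by omega)]
  have key : ∀ (L L' : Matrix (Fin n) (Fin κ) (ZMod 2)) (δ : Fin n → ZMod 2) (g g' : ℕ),
      (g < κ ∧ 8 * l + 136 ≤ g ∧ Cond β L g ∧ ¬ Cond β L (g + 1)) →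
      (g' < κ ∧ 8 * l + 136 ≤ g' ∧ Cond β L' g' ∧ ¬ Cond β L' (g' + 1)) → g' ≤ g → β ≤ wt δ →
      ∃ j, GoodL (fun j => mat blk pos (A j)) L L' δ j := by
    rintro L L' δ g g' ⟨c1, c2, c3, c4⟩ ⟨d1, d2, d3, d4⟩ hg hδ
    have c5 : ¬ Cond β L' (g + 1) := fun h => d4 (cond_mono (by omega) h)
    have e := (by omega : ∀ a b c d : ℕ, a < 32 * n → b < 32 * n → c < 32 * n → d < 32 * n →
      a + b + c + d < 128 * n) _ _ _ _ (b1 g c1 L L' c2 c3 c4 c5) (b2 g c1 L L' c2 c3 c4 c5)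
      (b1 g' d1 L' L' d2 d3 d4 d4) (b3 δ hδ)
    obtain ⟨j, -, hj⟩ := exists_mem_notMem_of_card_lt_card (t := univ) (lt_of_le_of_lt
      ((card_union_le _ _).trans (Nat.add_le_add_right ((card_union_le _ _).trans
        (Nat.add_le_add_right (card_union_le _ _) _)) _)) (e.trans_eq (by simp)))
    simp only [mem_union, mem_filter, mem_univ, true_and, not_or, not_exists, not_and, not_not,
      BadS] at hj
    obtain ⟨⟨⟨⟨⟨f1, f2⟩, f3⟩, -, f4⟩, ⟨f5, -⟩, -⟩, f6⟩ := hj
    refine ⟨j, fun c hc => funext fun k => ?_, fun j' hne => ?_, f6, fun i c hc => ?_⟩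
    · by_contra hk
      exact f1 c k (z2 hk) hc
    · have : j'.val ≠ j.val := fun e => hne (Fin.ext e)
      rcases lt_or_gt_of_ne this with h' | h'
      · exact f3 j' (by simpa using h')
      · exact f4 j' (by simpa using h')
    · have g1 : ∀ k, k ≠ i → c k = 0 := fun k hk => by
        by_contra h
        exact f2 i c k hk (z2 h) hc.symm
      have g2 : c ᵥ* (mat blk pos (A j) * L) = c i • (mat blk pos (A j) * L) i := by
        rw [vecMul_eq_sum, sum_eq_single i (fun k _ hk => by rw [g1 k hk, zero_smul]) (by simp)]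
      by_cases h : c i = 0
      · refine absurd ?_ (f5 (Pi.single i 1) i (by simp))
        rw [single_one_vecMul]
        exact hc.trans (by rw [g2, h, zero_smul])
      · rw [hc, g2, z2 h, one_smul]
  refine ⟨A, fun L L' δ hL hL' hδ => ?_⟩
  obtain ⟨g, hg⟩ := lev L hL
  obtain ⟨g', hg'⟩ := lev L' hL'
  rcases le_total g' g with h | h
  · exact (key L L' δ g g' hg hg' h hδ).imp fun _ => Or.inl
  · exact (key L' L δ g' g hg' hg h hδ).imp fun _ => Or.inr

end Pool.Agent.MP_ed3b92_lc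

end

section

open Finset Function Matrix Module

namespace Pool.Agent.MP_ed3b92_lc

variable {n m : ℕ} (P : LD n m)

lemma Post_mono {u v : Fin m} (h : P.Edge u v) : P.Post v ≤ P.Post u :=
  Submodule.span_mono fun _ ⟨w, a, b, h1, h2⟩ => ⟨w, a, b, h1.head h, h2⟩

lemma Post_self {u a b : Fin m} {q : Fin n → ZMod 2} (h : P.lab u = .dec q a b) : q ∈ P.Post u :=
  Submodule.subset_span ⟨u, a, b, .refl, h⟩

lemma Post_le {u : Fin m} {W : Submodule (ZMod 2) (Fin n → ZMod 2)}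
    (h1 : ∀ q a b, P.lab u = .dec q a b → q ∈ W) (h2 : ∀ v, P.Edge u v → P.Post v ≤ W) :
    P.Post u ≤ W := by
  refine Submodule.span_le.2 fun q ⟨w, a, b, r, l⟩ => ?_
  rcases r.cases_head with rfl | ⟨v, e, r'⟩
  · exact h1 q a b l
  · exact h2 v e (Submodule.subset_span ⟨w, a, b, r', l⟩)

lemma ledge_dec {u a b : Fin m} {q : Fin n → ZMod 2} (h : P.lab u = .dec q a b) (v : Fin m) :
    P.Edge u v ↔ v = a ∨ v = b := by simp [LD.Edge, h]

lemma ledge_gate {u a b : Fin m} {op : Bool → Bool → Bool} (h : P.lab u = .gate op a b)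
    (v : Fin m) : P.Edge u v ↔ v = a ∨ v = b := by simp [LD.Edge, h]

/-- the local rules for the node functions -/
def LRules (g : Fin m → (Fin n → ZMod 2) → Bool) : Prop :=
  (∀ u c, P.lab u = .sink c → ∀ x, g u x = c) ∧
  (∀ u q a b, P.lab u = .dec q a b → ∀ x, g u x = if q ⬝ᵥ x = 1 then g b x else g a x) ∧
  (∀ u op a b, P.lab u = .gate op a b → ∀ x, g u x = op (g a x) (g b x))

lemma ldep (hP : P.Valid) {g : Fin m → (Fin n → ZMod 2) → Bool} (hg : LRules P g)
    (x x' : Fin n → ZMod 2) (u : Fin m) :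
    (∀ p ∈ P.Post u, p ⬝ᵥ x = p ⬝ᵥ x') → g u x = g u x' := by
  induction u using WellFoundedLT.induction with
  | ind u ih =>
    intro h
    have key : ∀ v, P.Edge u v → g v x = g v x' :=
      fun v e => ih v (hP.1 u v e) fun i hi => h i (Post_mono P e hi)
    cases hl : P.lab u with
    | sink c => rw [hg.1 u c hl, hg.1 u c hl]
    | dec q a b =>
      rw [hg.2.1 u q a b hl, hg.2.1 u q a b hl, h q (Post_self P hl),
        key a ((ledge_dec P hl a).2 (Or.inl rfl)), key b ((ledge_dec P hl b).2 (Or.inr rfl))]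
    | gate op a b =>
      rw [hg.2.2 u op a b hl, hg.2.2 u op a b hl,
        key a ((ledge_gate P hl a).2 (Or.inl rfl)), key b ((ledge_gate P hl b).2 (Or.inr rfl))]

lemma dot_frame {κ : ℕ} (p z : Fin n → ZMod 2) (L : Matrix (Fin n) (Fin κ) (ZMod 2))
    (y : Fin κ → ZMod 2) : p ⬝ᵥ (z + L *ᵥ y) = p ⬝ᵥ z + (p ᵥ* L) ⬝ᵥ y := by
  rw [dotProduct_add, dotProduct_mulVec]

lemma disj_step {S S' T W : Submodule (ZMod 2) (Fin n → ZMod 2)} (h1 : S' ≤ S) (h2 : T ≤ S)
    (h3 : Disjoint S' T) (h4 : Disjoint S W) : Disjoint S' (W ⊔ T) := by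
  refine Submodule.disjoint_def.2 fun p hp hq => ?_
  obtain ⟨a, ha, r, hr, rfl⟩ := Submodule.mem_sup.1 hq
  have : a = 0 := Submodule.disjoint_def.1 h4 a (by simpa using S.sub_mem (h1 hp) (h2 hr)) ha
  subst this
  exact Submodule.disjoint_def.1 h3 _ hp (by simpa using hr)

/-- what the choice `L` of a frame achieves for the function `f` at the point `z` -/
def LNice {κ : ℕ} (g : Fin m → (Fin n → ZMod 2) → Bool)
    (X : Fin m → Matrix (Fin n) (Fin κ) (ZMod 2)) (f : (Fin n → ZMod 2) → Bool)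
    (W : Submodule (ZMod 2) (Fin n → ZMod 2))
    (L : (Fin n → ZMod 2) → Matrix (Fin n) (Fin κ) (ZMod 2)) (z : Fin n → ZMod 2) : Prop :=
  (∃ Q : Matrix (Fin κ) (Fin n) (ZMod 2), Q * L z = 1) ∧ (∀ p ∈ W, p ᵥ* L z = 0) ∧
    (∀ y, L (z + L z *ᵥ y) = L z) ∧
    ((∀ y, f (z + L z *ᵥ y) = f z) ∨ ∃ (v : Fin m) (h : Bool → Bool),
      finrank (ZMod 2) (P.Post v) ≤ 2 * κ ∧ (∀ p ∈ P.Post v, p ᵥ* L z = p ᵥ* X v) ∧
      ∀ y, f (z + L z *ᵥ y) = h (g v (z + L z *ᵥ y)))

lemma lift_frame {κ : ℕ} {S W : Submodule (ZMod 2) (Fin n → ZMod 2)} (h : Disjoint S W)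
    {Q : Matrix (Fin κ) (Fin n) (ZMod 2)} {X : Matrix (Fin n) (Fin κ) (ZMod 2)}
    (h1 : ∀ c, c ᵥ* Q ∈ S) (h2 : Q * X = 1) : ∃ L : Matrix (Fin n) (Fin κ) (ZMod 2),
      Q * L = 1 ∧ (∀ p ∈ W, p ᵥ* L = 0) ∧ ∀ p ∈ S, p ᵥ* L = p ᵥ* X := by
  obtain ⟨M, a1, a2⟩ := projM h
  refine ⟨M * X, ext_iff_vecMul.2 fun c => ?_, fun p hp => ?_, fun p hp => ?_⟩
  · rw [← vecMul_vecMul, ← vecMul_vecMul, a1 _ (h1 c), vecMul_vecMul, h2]
  · rw [← vecMul_vecMul, a2 p hp, zero_vecMul]
  · rw [← vecMul_vecMul, a1 p hp]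

lemma exists_L {κ : ℕ} (hP : P.Valid) {g : Fin m → (Fin n → ZMod 2) → Bool} (hg : LRules P g)
    (X : Fin m → Matrix (Fin n) (Fin κ) (ZMod 2))
    (hX : ∀ v, κ ≤ finrank (ZMod 2) (P.Post v) → ∃ Q : Matrix (Fin κ) (Fin n) (ZMod 2),
      (∀ c, c ᵥ* Q ∈ P.Post v) ∧ Q * X v = 1) (u : Fin m) :
    ∀ W, Disjoint (P.Post u) W →
      (κ ≤ finrank (ZMod 2) (P.Post u) ∨ finrank (ZMod 2) W + 2 * κ ≤ n) →
      ∃ L, ∀ z, LNice P g X (g u) W L z := by
  have hE : finrank (ZMod 2) (Fin n → ZMod 2) = n := by simp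
  induction u using WellFoundedLT.induction with
  | ind u ih =>
    intro W hW hc
    have hdim := Submodule.finrank_add_finrank_le_of_disjoint hW
    rcases lt_or_ge (finrank (ZMod 2) (P.Post u)) κ with h1 | h1
    · obtain ⟨C, hC⟩ := (P.Post u ⊔ W).exists_isCompl
      have a1 := Submodule.finrank_add_eq_of_isCompl hC
      have a2 := Submodule.finrank_add_le_finrank_add_finrank (P.Post u) W
      obtain ⟨Q, Y, b1, b2⟩ := frame (S := C) (k := κ) (by omega)
      obtain ⟨L, c1, c2, -⟩ := lift_frame hC.disjoint.symm b1 b2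
      refine ⟨fun _ => L, fun z => ⟨⟨Q, c1⟩, fun p hp => c2 p (Submodule.mem_sup_right hp),
        fun _ => rfl, Or.inl fun y => ldep P hP hg _ _ u fun p hp => ?_⟩⟩
      rw [dot_frame, c2 p (Submodule.mem_sup_left hp), zero_dotProduct, add_zero]
    rcases le_or_gt (finrank (ZMod 2) (P.Post u)) (2 * κ) with h2 | h2
    · obtain ⟨Q, b1, b2⟩ := hX u h1
      obtain ⟨L, c1, c2, c3⟩ := lift_frame hW b1 b2
      exact ⟨fun _ => L, fun z => ⟨⟨Q, c1⟩, c2, fun _ => rfl,
        Or.inr ⟨u, id, h2, c3, fun _ => rfl⟩⟩⟩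
    cases hl : P.lab u with
    | sink c =>
      have : P.Post u ≤ ⊥ := Post_le P (fun q a b h => by rw [hl] at h; cases h)
        (fun v e => by simp [LD.Edge, hl] at e)
      have := Submodule.finrank_mono this
      rw [finrank_bot] at this
      omega
    | dec q a b =>
      have hq := Post_self P hl
      have key : ∀ v, P.Edge u v →
          ∃ L, ∀ z, LNice P g X (g v) (W ⊔ Submodule.span (ZMod 2) {q}) L z := by
        intro v e
        have h3 : q ∉ P.Post v := by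
          rcases (ledge_dec P hl v).1 e with rfl | rfl
          · exact (hP.2.1 u q _ _ hl).1
          · exact (hP.2.1 u q _ _ hl).2
        refine ih v (hP.1 u v e) _ (disj_step (Post_mono P e)
          ((Submodule.span_singleton_le_iff_mem _ _).2 hq)
          (Submodule.disjoint_span_singleton_of_notMem h3) hW) (Or.inr ?_)
        have a1 := Submodule.finrank_add_le_finrank_add_finrank W (Submodule.span (ZMod 2) {q})
        have a2 := finrank_span_singleton (K := ZMod 2) (v := q)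
          (fun e => h3 (e ▸ Submodule.zero_mem _))
        omega
      choose L hL using key
      have hch : ∀ z : Fin n → ZMod 2, P.Edge u (if q ⬝ᵥ z = 1 then b else a) := fun z => by
        rw [ledge_dec P hl]; split_ifs <;> simp
      have hgu : ∀ x z : Fin n → ZMod 2, q ⬝ᵥ x = q ⬝ᵥ z →
          g u x = g (if q ⬝ᵥ z = 1 then b else a) x := by
        intro x z e
        rw [hg.2.1 u q a b hl, e]; split_ifs <;> rfl
      refine ⟨fun z => L _ (hch z) z, fun z => ?_⟩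
      obtain ⟨b1, b2, b3, b4⟩ := hL _ (hch z) z
      have hz : ∀ y, q ⬝ᵥ (z + L _ (hch z) z *ᵥ y) = q ⬝ᵥ z := fun y => by
        rw [dot_frame, b2 q (Submodule.mem_sup_right (Submodule.mem_span_singleton_self q)),
          zero_dotProduct, add_zero]
      refine ⟨b1, fun p hp => b2 p (Submodule.mem_sup_left hp), fun y => ?_, ?_⟩
      · have : ∀ (x : Fin n → ZMod 2) (e : q ⬝ᵥ x = q ⬝ᵥ z), L _ (hch x) = L _ (hch z) := by
          intro x e
          congr 1
          rw [e]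
        exact (congrFun (this _ (hz y)) _).trans (b3 y)
      · rcases b4 with b4 | ⟨v, h, c1, c2, c3⟩
        · exact Or.inl fun y => by rw [hgu _ z (hz y), hgu z z rfl, b4]
        · exact Or.inr ⟨v, h, c1, c2, fun y => by rw [hgu _ z (hz y), c3]⟩
    | gate op a b =>
      have key : ∀ (op' : Bool → Bool → Bool) (a' b' : Fin m), P.Edge u a' → P.Edge u b' →
          (∀ x, g u x = op' (g a' x) (g b' x)) → Disjoint (P.Post b') (P.Post a') →
          κ ≤ finrank (ZMod 2) (P.Post b') → ∃ L, ∀ z, LNice P g X (g u) W L z := by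
        intro op' a' b' e' e hu hd hk
        obtain ⟨L, hL⟩ := ih b' (hP.1 u b' e) _
          (disj_step (Post_mono P e) (Post_mono P e') hd hW) (Or.inl hk)
        refine ⟨L, fun z => ?_⟩
        obtain ⟨b1, b2, b3, b4⟩ := hL z
        have hz : ∀ y, g a' (z + L z *ᵥ y) = g a' z := fun y => ldep P hP hg _ _ a' fun p hp => by
          rw [dot_frame, b2 p (Submodule.mem_sup_right hp), zero_dotProduct, add_zero]
        refine ⟨b1, fun p hp => b2 p (Submodule.mem_sup_left hp), b3, ?_⟩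
        rcases b4 with b4 | ⟨v, h, c1, c2, c3⟩
        · exact Or.inl fun y => by rw [hu, hu, b4, hz]
        · exact Or.inr ⟨v, fun t => op' (g a' z) (h t), c1, c2, fun y => by rw [hu, c3, hz]⟩
      have ea := (ledge_gate P hl a).2 (Or.inl rfl)
      have eb := (ledge_gate P hl b).2 (Or.inr rfl)
      have hsub : P.Post u ≤ P.Post a ⊔ P.Post b :=
        Post_le P (fun q a b h => by rw [hl] at h; cases h) fun v e => by
          rcases (ledge_gate P hl v).1 e with rfl | rfl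
          · exact le_sup_left
          · exact le_sup_right
      have hc := (Submodule.finrank_mono hsub).trans
        (Submodule.finrank_add_le_finrank_add_finrank _ _)
      have hd := hP.2.2 u op a b hl
      rcases le_or_gt κ (finrank (ZMod 2) (P.Post b)) with h3 | h3
      · exact key op a b ea eb (hg.2.2 u op a b hl) hd.symm h3
      · exact key (fun s t => op t s) b a eb ea (hg.2.2 u op a b hl) hd (by omega)

lemma exists_label (S : Submodule (ZMod 2) (Fin n → ZMod 2)) (k : ℕ) :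
    ∃ B : (Fin n → ZMod 2) → Fin k → ZMod 2, finrank (ZMod 2) S ≤ k →
      ∀ z z', B z = B z' → ∀ p ∈ S, p ⬝ᵥ z = p ⬝ᵥ z' := by
  refine ⟨fun z i => if h : i.val < finrank (ZMod 2) S then
    (finBasis (ZMod 2) S ⟨i.val, h⟩ : Fin n → ZMod 2) ⬝ᵥ z else 0, fun hk z z' e p hp => ?_⟩
  have h1 : p = ∑ i, (finBasis (ZMod 2) S).repr ⟨p, hp⟩ i •
      (finBasis (ZMod 2) S i : Fin n → ZMod 2) := by
    have := congrArg Subtype.val ((finBasis (ZMod 2) S).sum_repr ⟨p, hp⟩)
    simpa only [Submodule.coe_sum, Submodule.coe_smul] using this.symm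
  rw [h1, sum_dotProduct, sum_dotProduct]
  refine sum_congr rfl fun i _ => ?_
  have := congrFun e ⟨i.val, lt_of_lt_of_le i.2 hk⟩
  simp only [i.2, dif_pos] at this
  rw [smul_dotProduct, smul_dotProduct, this]

theorem ld_lower {b κ N : ℕ} (A : Fin N → Matrix (Fin b) (Fin n) (ZMod 2)) (J : Finset (Fin N))
    (Z : Finset (Fin n → ZMod 2)) (hZ : ∃ δ, δ ∉ Z) (hn : 2 * κ ≤ n) (hb : 4 * N ≤ 2 ^ b)
    (hJ : ∀ j, j ∈ J ↔ ∀ c, c ᵥ* A j = 0 → c = 0)
    (hgood : ∀ (L L' : Matrix (Fin n) (Fin κ) (ZMod 2)) (δ : Fin n → ZMod 2),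
      (∃ Q : Matrix (Fin κ) (Fin n) (ZMod 2), Q * L = 1) →
      (∃ Q : Matrix (Fin κ) (Fin n) (ZMod 2), Q * L' = 1) → δ ∉ Z →
      ∃ j, GoodL A L L' δ j ∨ GoodL A L' L δ j)
    (hP : P.Valid) {g : Fin m → (Fin n → ZMod 2) → Bool} (hg : LRules P g)
    (hf : ∀ x, g P.root x = true ↔ hardL A J x) : 2 ^ n ≤ m * 2 ^ (2 * κ + 3) * #Z := by
  have hX : ∀ v, ∃ X : Matrix (Fin n) (Fin κ) (ZMod 2), κ ≤ finrank (ZMod 2) (P.Post v) →
      ∃ Q : Matrix (Fin κ) (Fin n) (ZMod 2), (∀ c, c ᵥ* Q ∈ P.Post v) ∧ Q * X = 1 := fun v => by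
    by_cases h : κ ≤ finrank (ZMod 2) (P.Post v)
    · obtain ⟨Q, X, h1, h2⟩ := frame h
      exact ⟨X, fun _ => ⟨Q, h1, h2⟩⟩
    · exact ⟨0, fun h' => absurd h' h⟩
  choose X hX using hX
  choose B hB using fun v => exists_label (P.Post v) (2 * κ)
  obtain ⟨L, hL⟩ := exists_L P hP hg X hX P.root ⊥ disjoint_bot_right (Or.inr (by simpa using hn))
  have hA := atypL (A := A) (J := J) (fun j hj => (hJ j).1 hj) hb L (fun y z => (hL z).2.2.1 y)
  have hown : ∀ {L L' : Matrix (Fin n) (Fin κ) (ZMod 2)} {δ j}, GoodL A L L' δ j → j ∈ J :=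
    fun h => (hJ _).2 fun c hc => h.1 c (by rw [← vecMul_vecMul, hc, zero_vecMul])
  obtain ⟨T, hT⟩ : ∃ T : Fin m × (Bool → Bool) × (Fin (2 * κ) → ZMod 2) →
      Finset (Fin n → ZMod 2), ∀ p z, z ∈ T p ↔ TypL A J (L z) z ∧
      finrank (ZMod 2) (P.Post p.1) ≤ 2 * κ ∧ (∀ r ∈ P.Post p.1, r ᵥ* L z = r ᵥ* X p.1) ∧
      (∀ y, g P.root (z + L z *ᵥ y) = p.2.1 (g p.1 (z + L z *ᵥ y))) ∧ B p.1 z = p.2.2 := by
    classical
    exact ⟨fun p => {z | TypL A J (L z) z ∧
      finrank (ZMod 2) (P.Post p.1) ≤ 2 * κ ∧ (∀ r ∈ P.Post p.1, r ᵥ* L z = r ᵥ* X p.1) ∧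
      (∀ y, g P.root (z + L z *ᵥ y) = p.2.1 (g p.1 (z + L z *ᵥ y))) ∧ B p.1 z = p.2.2}, by simp⟩
  have hC : ∀ p, #(T p) ≤ #Z := by
    intro p
    rcases eq_empty_or_nonempty (T p) with he | ⟨z', hz'⟩
    · rw [he]; simp
    obtain ⟨d1, d2, d3, d4, d5⟩ := (hT _ _).1 hz'
    refine card_le_card_of_injOn (fun z => z - z') (fun z hz => ?_) fun x _ y _ e => by
      simpa using e
    obtain ⟨c1, -, c3, c4, c5⟩ := (hT _ _).1 (mem_coe.1 hz)
    by_contra hδ
    have heq : ∀ y, g P.root (z + L z *ᵥ y) = g P.root (z' + L z' *ᵥ y) := fun y => by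
      rw [c4, d4]
      refine congrArg p.2.1 (ldep P hP hg _ _ p.1 fun r hr => ?_)
      rw [dot_frame, dot_frame, c3 r hr, d3 r hr, hB p.1 d2 z' z (d5.trans c5.symm) r hr]
    obtain ⟨j, hj | hj⟩ :=
      hgood (L z) (L z') (z - z') (hL z).1 (hL z').1 (fun h => hδ (mem_coe.2 h))
    · exact decodeL (hown hj) hj d1 fun y hy => by rwa [← hf, ← heq, hf]
    · rw [show z - z' = z' - z from funext fun v => by
        simp only [Pi.sub_apply, CharTwo.sub_eq_add, add_comm]] at hj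
      exact decodeL (hown hj) hj c1 fun y hy => by rwa [← hf, heq, hf]
  have hE : #(univ : Finset (Fin n → ZMod 2)) ≤ #{z | ¬ TypL A J (L z) z}
      + m * (4 * 2 ^ (2 * κ)) * #Z := by
    have a1 := card_biUnion_le_card_mul univ _ _ fun p _ => hC p
    simp only [card_univ, Fintype.card_prod, Fintype.card_fin, Fintype.card_fun,
      Fintype.card_bool, ZMod.card] at a1
    refine le_trans (card_le_card fun z _ => ?_) ((card_union_le _ _).trans
      (Nat.add_le_add_left a1 _))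
    by_cases c1 : TypL A J (L z) z
    · rcases (hL z).2.2.2 with c2 | ⟨v, h, c2, c3, c4⟩
      · obtain ⟨δ, hδ⟩ := hZ
        obtain ⟨j, hj⟩ := hgood (L z) (L z) δ (hL z).1 (hL z).1 hδ
        rw [or_self] at hj
        refine (decodeL0 (hown hj) hj.1 c1 fun y y' hy => ?_).elim
        rw [← hf, c2] at hy ⊢
        exact hy
      · exact mem_union_right _ (mem_biUnion.2 ⟨(v, h, B v z), mem_univ _,
          (hT _ _).2 ⟨c1, c2, c3, c4, rfl⟩⟩)
    · exact mem_union_left _ (mem_filter.2 ⟨mem_univ _, c1⟩)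
  simp only [card_univ, Fintype.card_fun, ZMod.card, Fintype.card_fin] at hE
  rw [show m * 2 ^ (2 * κ + 3) * #Z = 2 * (m * (4 * 2 ^ (2 * κ)) * #Z) by ring]
  omega

end Pool.Agent.MP_ed3b92_lc

end

section

open Finset Function Matrix

namespace Pool.Agent.MP_ed3b92_lc

/-- bits as elements of `ZMod 2` -/
def bits {n : ℕ} (x : Fin n → Bool) : Fin n → ZMod 2 := fun i => if x i = true then 1 else 0

lemma bits_dec {n : ℕ} (x : Fin n → ZMod 2) : bits (fun i => decide (x i = 1)) = x := by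
  funext i
  change (if decide (x i = 1) = true then 1 else 0) = x i
  generalize x i = t
  revert t; decide

lemma dot_bits {n : ℕ} (a : Fin n → ZMod 2) (x : Fin n → Bool) :
    a ⬝ᵥ bits x = 0 ↔ Even (ones {v | a v ≠ 0} x) := by
  rw [← ZMod.natCast_eq_zero_iff_even]
  refine Eq.congr_left ?_
  unfold ones
  rw [filter_filter, card_filter]
  push_cast
  refine sum_congr rfl fun v _ => ?_
  unfold bits
  generalize a v = t, x v = c
  revert t c; decide

lemma rep_L {n b N : ℕ} (d : ℕ) (A : Fin N → Matrix (Fin b) (Fin n) (ZMod 2))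
    (hA : ∀ j i, #{v | A j i v ≠ 0} ≤ 2 ^ d) (J : Finset (Fin N)) :
    Rep (N * (b * 4 ^ d + 1) + 1) (fun x => hardL A J (bits x)) := by
  have h : ∀ j ∈ J, Rep (b * 4 ^ d + 1) (fun x => A j *ᵥ bits x = 0) := by
    intro j _
    have := Rep.all (univ : Finset (Fin b)) (4 ^ d) (fun i x => Even (ones {v | A j i v ≠ 0} x))
      (fun i _ => (Rep.par d _ (hA j i)).1)
    refine this.mono (by simp) fun x => ?_
    simp only [mem_univ, true_imp_iff, ← dot_bits]
    exact funext_iff.symm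
  refine (Rep.ex J _ _ h).mono ?_ (fun x => Iff.rfl)
  have : #J ≤ N := by simpa using card_le_univ J
  gcongr

theorem lin_main (n k : ℕ) (hk : 10 ^ 12 * (Nat.log 2 n + 1) ≤ k) (hkn : k ^ 2 ≤ n) :
    ∃ F : Fm n, F.size * k ^ 2 ≤ 10 ^ 12 * n ^ 3 * (Nat.log 2 n + 1) ^ 3 ∧
      ∀ (m : ℕ) (P : LD n m), P.Valid → P.Computes F.eval → 2 ^ (n - k) ≤ m := by
  have hn : n + 1 ≤ 2 ^ (Nat.log 2 n + 1) := Nat.lt_pow_succ_log_self (by norm_num) n
  generalize hl : Nat.log 2 n + 1 = l at hn hk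
  have hl1 : 1 ≤ l := by omega
  obtain ⟨β, hβ⟩ : ∃ β, β = (k - 3) / (17 * (8 * l + 137)) := ⟨_, rfl⟩
  have hβ2 : 2 ≤ β := by
    rw [hβ, Nat.le_div_iff_mul_le (by omega)]; omega
  have h1 : β * (17 * (8 * l + 137)) ≤ k - 3 := hβ ▸ Nat.div_mul_le_self _ _
  have h2 : k - 3 < (β + 1) * (17 * (8 * l + 137)) := by
    rw [← Nat.div_lt_iff_lt_mul (by omega), ← hβ]; omega
  obtain ⟨κ, hκ⟩ : ∃ κ, κ = 8 * (β * (8 * l + 136 + 1)) := ⟨_, rfl⟩
  have h3 : 2 * κ + 3 + l * β ≤ k := by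
    have : β * (17 * (8 * l + 137)) = 2 * κ + l * β + β * (7 * l + 137) := by rw [hκ]; ring
    omega
  have h4 : k ≤ 5000 * (l * β) := by
    have : k < 3 + (β + 1) * (17 * (8 * l + 137)) := by omega
    nlinarith
  have hkn' : k ≤ n := by nlinarith
  have h5 : β ≤ n := by nlinarith
  have h6 : κ * κ ≤ n := by nlinarith
  have h7 : κ * (β * l) ≤ n := le_trans (Nat.mul_le_mul_left _ (by rw [hκ]; nlinarith)) h6
  obtain ⟨d, hd1, hd2⟩ := exists_width n β (by omega) h5
  obtain ⟨blk, pos, hinj⟩ : ∃ (blk : Fin n → Fin (2 ^ d)) (pos : Fin n → Fin β),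
      ∀ u v, blk u = blk v → pos u = pos v → u = v :=
    ⟨fun v => ⟨v.val / β, (Nat.div_lt_iff_lt_mul (by omega)).2 (lt_of_lt_of_le v.2 hd1)⟩,
    fun v => ⟨v.val % β, Nat.mod_lt _ (by omega)⟩,
    fun u v a1 a2 => Fin.ext (by
      rw [← Nat.div_add_mod u.val β, ← Nat.div_add_mod v.val β,
        show u.val / β = v.val / β from congrArg Fin.val a1,
        show u.val % β = v.val % β from congrArg Fin.val a2])⟩
  obtain ⟨A, hA⟩ := exists_A hinj hβ2 l (by omega) hn h6 h7 hκ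
  obtain ⟨F, hF1, hF2⟩ := rep_L d (fun j => mat blk pos (A j)) (fun j i => le_trans
    (card_le_card fun v hv => gv_supp blk pos (A j i) v (mem_filter.1 hv).2)
    (card_supp blk pos hinj _)) (univ.filter fun j => ∀ c, c ᵥ* mat blk pos (A j) = 0 → c = 0)
  refine ⟨F, ?_, fun m P r1 ⟨g, r2, r3⟩ => ?_⟩
  · have e1 : 2 ^ d * k ≤ 10000 * (l * n) := by
      calc 2 ^ d * k ≤ 2 ^ d * (5000 * (l * β)) := by gcongr
        _ = 5000 * l * (2 ^ d * β) := by ring
        _ ≤ 5000 * l * (2 * n) := by gcongr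
        _ = _ := by ring
    have e2 : 4 ^ d * k ^ 2 ≤ (10000 * (l * n)) ^ 2 := by
      rw [show (4 : ℕ) = 2 ^ 2 by norm_num, ← pow_mul, mul_comm 2 d, pow_mul, ← mul_pow]
      gcongr
    have e3 : 1 ≤ l ^ 3 := Nat.one_le_pow _ _ hl1
    have e4 : 1 ≤ n := by omega
    calc F.size * k ^ 2 ≤ (128 * n * ((l + 20) * 4 ^ d + 1) + n) * k ^ 2 := by
          gcongr; omega
      _ = 128 * n * (l + 20) * (4 ^ d * k ^ 2) + 129 * n * k ^ 2 * 1 := by ring
      _ ≤ 128 * n * (21 * l) * (10000 * (l * n)) ^ 2 + 129 * n * n ^ 2 * l ^ 3 := by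
          gcongr; omega
      _ = 268800000129 * n ^ 3 * l ^ 3 := by ring
      _ ≤ _ := by gcongr; norm_num
  · have hg : LRules P (fun u x => g u fun i => decide (x i = 1)) :=
      ⟨fun u c h x => by simp only [r3 u, h], fun u q a b h x => by
        have : ∑ i, q i * (if decide (x i = 1) = true then 1 else 0) = q ⬝ᵥ x :=
          congrArg (q ⬝ᵥ ·) (bits_dec x)
        simp only [r3 u, h, this], fun u op a b h x => by simp only [r3 u, h]⟩
    have h := ld_lower P (fun j => mat blk pos (A j))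
      (univ.filter fun j => ∀ c, c ᵥ* mat blk pos (A j) = 0 → c = 0) {δ | wt δ < β}
      ⟨fun _ => 1, by simpa [wt] using h5⟩ (by omega) (by rw [pow_add]; omega)
      (fun j => by simp) (fun L L' δ a1 a2 a3 => hA L L' δ a1 a2 (by simpa using a3)) r1 hg
      (fun x => by simp only [r2, hF2, bits_dec])
    have hZ : #{δ : Fin n → ZMod 2 | wt δ < β} ≤ 2 ^ (l * β) := by
      rw [pow_mul]
      exact le_trans (card_le_card fun δ hδ => mem_filter.2
        ⟨mem_univ _, (mem_filter.1 hδ).2.trans (Nat.lt_succ_self _)⟩)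
        ((ball β).trans (by gcongr))
    have h' := h.trans (Nat.mul_le_mul_left _ hZ)
    rw [mul_assoc, ← pow_add] at h'
    refine Nat.le_of_mul_le_mul_right (le_trans ?_ h') (by positivity)
    rw [← pow_add]
    exact Nat.pow_le_pow_right (by norm_num) (by omega)

end Pool.Agent.MP_ed3b92_lc

end
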